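import Pool.Agent.X274.TH.Hom0
import Pool.Agent.Y142.SV.Fin
import Pool.Agent.Y405.ZO.Frob
import Pool.Agent.Y484.ZI.IntRes
import Pool.Agent.Y726.ZI.Cheb
import Pool.Agent.Y681.ZI.Dens
import Pool.Agent.Y537.ZI.Multi
import Pool.Agent.Y614.ZD.Badd
import Pool.Agent.Y100.ZD.Sub
import Pool.Agent.Y255.SS.LF
import Pool.Agent.Y297.SS.CF
import Pool.Agent.Y708.SS.Loc
import Pool.Agent.Y936.SS.Logr
import Pool.Agent.Y518.SS.Krs
import Pool.Agent.Y737.SS.Chara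
import Pool.Agent.Y932.SI.Subf
import Pool.Agent.Y421.SI.EF
import Pool.Agent.Y641.SI.Trd
import Pool.Agent.Y949.SI.Ende

/-!
# Homomorphisms between several motives at 100 percent of the primes (internal form)
-/

set_option autoImplicit false
set_option linter.style.haveILetI false

open Matrix Polynomial Filter Topology NumberField IsDedekindDomain
open Pool.Agent.Y142 Pool.Agent.Y142.ZO Pool.Agent.Y142.ZI
open Pool.Agent.Y142.ZS (NiceP push_C)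
open Pool.Agent.Y142.SS
open Pool.Agent.Y142.SI

namespace Pool.Agent.X274.PR

theorem density_iUnion {I : Type} [Fintype I] (A : I → Set ℕ)
    (h : ∀ i, ZI.DensityZero (A i)) : ZI.DensityZero (⋃ i, A i) := by
  classical
  have h1 : ∀ t : Finset I, ZI.DensityZero (⋃ i ∈ t, A i) := by
    intro t
    induction t using Finset.induction_on with
    | empty =>
      refine ZI.DensityZero.mono (Pool.Agent.X274.TH.density_finite 0) ?_
      intro ℓ hℓ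
      simp at hℓ
    | insert a t _ ih =>
      refine ZI.DensityZero.mono ((h a).union ih) ?_
      intro ℓ hℓ
      simpa using hℓ
  refine ZI.DensityZero.mono (h1 Finset.univ) ?_
  intro ℓ hℓ
  simpa using hℓ

/-- the conditions on the places, internal form -/
def Enough {K : Type} [Field K] [NumberField K] (E : IntermediateField ℚ QQ) (n N : ℕ)
    (S : Set (HeightOneSpectrum (𝓞 K))) (P : HeightOneSpectrum (𝓞 K) → ℚ[X]) : Prop :=
  ∃ (m : ℕ) (u : Fin (m + 1) → HeightOneSpectrum (𝓞 K)), (∀ i, NiceP S P (u i)) ∧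
    (∀ (g : GK ℚ) (d : ℕ), 0 < d → d < N → ¬ n * ordE E g ∣ d →
      ∃ v, NiceP S P v ∧ ∃ w ∈ NoSet d (P v), w⁻¹ * g ∈ Subgroup.closure (⋃ i, Fix (P (u i)))) ∧
    ∀ g : GK ℚ, ∃ v, NiceP S P v ∧ ∃ w ∈ Cl2 E n (P v),
      w⁻¹ * g ∈ Subgroup.closure (⋃ i, Fix (P (u i)))

theorem homs_density {K : Type} [Field K] [NumberField K] {Γ : Type} [Group Γ]
    [TopologicalSpace Γ] [IsTopologicalGroup Γ] [CompactSpace Γ] (s : GK K →* Γ)
    (hs : Continuous s) {S : Set (HeightOneSpectrum (𝓞 K))} (hS : S.Finite)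
    {I : Type} [Fintype I] (N n : I → ℕ) (P : I → HeightOneSpectrum (𝓞 K) → ℚ[X])
    (ρ : ∀ (ℓ : ℕ) [Fact ℓ.Prime] (i : I), Γ →* Matrix (Fin (N i)) (Fin (N i)) ℚ_[ℓ])
    (hgs : ∀ (ℓ : ℕ) [Fact ℓ.Prime] (i : I), GenSys K s (N i) ℓ (ρ ℓ i) S (P i))
    (E : I → IntermediateField ℚ (AlgebraicClosure ℚ)) (hfin : ∀ i, FiniteDimensional ℚ (E i))
    (hE : ∀ i, Normal ℚ (E i)) (hn : ∀ i, 0 < n i)
    (hN : ∀ i, N i = n i * Module.finrank ℚ (E i))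
    (ε : ∀ (ℓ : ℕ) [Fact ℓ.Prime] (i : I), E i →+* Matrix (Fin (N i)) (Fin (N i)) ℚ_[ℓ])
    (hε : ∀ (ℓ : ℕ) [Fact ℓ.Prime] (i : I) (a : E i) (γ : Γ),
      ε ℓ i a * ρ ℓ i γ = ρ ℓ i γ * ε ℓ i a)
    (htr : ∀ (ℓ : ℕ) [Fact ℓ.Prime] (i : I) (a : E i),
      (ε ℓ i a).trace = (n i : ℚ_[ℓ]) * ((Algebra.trace ℚ (E i) a : ℚ) : ℚ_[ℓ]))
    (hplaces : ∀ i, Enough (E i) (n i) (N i) S (P i))
    (hsep : ∀ i j, i ≠ j → ∃ v, v ∉ S ∧ ∀ n : ℕ, 0 < n → ∀ x y : ℂ, aeval x (P i v) = 0 →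
      aeval y (P j v) = 0 → x ^ n ≠ y ^ n) :
    ZI.DensityZero {ℓ | ∃ _ : Fact ℓ.Prime, ¬ ((∀ i, GoodEnd ℓ (E i) (ρ ℓ i) (ε ℓ i)) ∧
      ∀ U : Subgroup Γ, IsOpen (U : Set Γ) → ∀ i j, i ≠ j →
        ∀ Z : Matrix (Fin (N j)) (Fin (N i)) ℚ_[ℓ],
          (∀ σ ∈ U, Z * ρ ℓ i σ = ρ ℓ j σ * Z) → Z = 0)} := by
  classical
  -- the tasks
  have hFROB : Y142.ZO.S_FROB := Y405.ZO.t
  have hINT : Y142.ZI.S_INT := Y484.ZI.t1
  have hCHEB : Y142.ZI.S_CHEB := Y726.ZI.t1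
  have hDENS2 : Y142.ZI.S_DENS2 := Y681.ZI.t hCHEB
  have hMULTI : Y142.ZI.S_MULTI := Y537.ZI.t
  have hLF : Y142.SS.S_LF := Y255.SS.t
  have hCF : Y142.SS.S_CF := Y297.SS.t hLF
  have hLOC : Y142.SS.S_LOC := Y708.SS.Loc.t hCF
  have hLOGR : Y142.SS.S_LOGR := Y936.SS.t
  have hKRS : Y142.SS.S_KRS := Y518.SS.t
  have hCHARA : Y142.SS.S_CHARA := Y737.SS.Chara.t
  have hBADD : Y142.ZD.S_BADD := Y614.ZD.t
  have hSUB : Y142.ZD.S_SUB := Y100.ZD.t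
  have hSUBF : Y142.SI.S_SUBF := Y932.SI.Subf.t hLF hCF
  have hEF : Y142.SI.S_EF := Y421.SI.EF.t hLOC
  have hTRD : Y142.SI.S_TRD := Y641.SI.t
  have hENDE : Y142.SI.S_ENDE := Y949.SI.t
  -- one motive
  have hone : ∀ i, ZI.DensityZero
      {ℓ | ∃ _ : Fact ℓ.Prime, ¬ GoodEnd ℓ (E i) (ρ ℓ i) (ε ℓ i)} := by
    intro i
    obtain ⟨m, u, hu, h1, h2⟩ := hplaces i
    exact densitySI hLOC hLOGR hKRS hCHARA hMULTI hFROB hINT hDENS2 hBADD hSUB hSUBF hEF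
      hTRD hENDE hS s hs (fun ℓ _ => ρ ℓ i) (fun ℓ _ => hgs ℓ i) (E i)
      (hfin i) (hE i) (n i) (hn i) (hN i) (fun ℓ _ => ε ℓ i)
      (fun ℓ _ a γ => hε ℓ i a γ) (fun ℓ _ a => htr ℓ i a) u hu h1 h2
  -- the places which separate
  choose vv hvv using hsep
  let c : I → I → ℕ := fun i j => if h : i ≠ j then Ideal.absNorm (vv i j h).asIdeal else 0
  let b : ℕ := ∑ i, ∑ j, c i j
  have hbig : ZI.DensityZero {ℓ : ℕ | ℓ ≤ b} := Pool.Agent.X274.TH.density_finite b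
  refine ZI.DensityZero.mono (hbig.union (density_iUnion _ hone)) ?_
  rintro ℓ ⟨hp, hno⟩
  by_contra hnot
  rw [Set.mem_union, not_or] at hnot
  obtain ⟨hb, hgood'⟩ := hnot
  have hbℓ : b < ℓ := by
    by_contra h
    exact hb (show ℓ ≤ b by omega)
  have hgood : ∀ i, GoodEnd ℓ (E i) (ρ ℓ i) (ε ℓ i) := by
    intro i
    by_contra h
    exact hgood' (Set.mem_iUnion.2 ⟨i, hp, h⟩)
  refine hno ⟨hgood, fun U hU i j hij Z hZ => ?_⟩
  obtain ⟨hvS, hroots⟩ := hvv i j hij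
  have hvb : Ideal.absNorm (vv i j hij).asIdeal ≤ b := by
    refine le_trans ?_ (Finset.single_le_sum (f := fun i => ∑ j, c i j)
      (fun _ _ => Nat.zero_le _) (Finset.mem_univ i))
    refine le_trans ?_ (Finset.single_le_sum (f := fun j => c i j)
      (fun _ _ => Nat.zero_le _) (Finset.mem_univ j))
    simp only [c]
    rw [dif_pos hij]
  have hvℓ := not_mem_of_lt (vv i j hij) hp.out (lt_of_le_of_lt hvb hbℓ)
  obtain ⟨τ, hτ⟩ := Pool.Agent.W401.Frob.exists_frob (vv i j hij)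
  have hci := (hgs ℓ i).2 _ hvS hvℓ τ hτ
  have hcj := (hgs ℓ j).2 _ hvS hvℓ τ hτ
  have : Finite (Γ ⧸ U) := Subgroup.quotient_finite_of_isOpen U hU
  have hidx : U.index ≠ 0 := Subgroup.index_ne_zero_of_finite
  obtain ⟨k, hk0, -, hk⟩ := Subgroup.exists_pow_mem_of_index_ne_zero hidx (s τ⁻¹)
  obtain ⟨ι⟩ := emb ℓ
  obtain ⟨jc⟩ := nonempty_LC
  have hne : ∀ i' , (ρ ℓ i' (s τ⁻¹)).charpoly = (P i' (vv i j hij)).map (algebraMap ℚ ℚ_[ℓ]) →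
      P i' (vv i j hij) ≠ 0 := by
    intro i' h h0
    rw [h0, Polynomial.map_zero] at h
    exact (Matrix.charpoly_monic (ρ ℓ i' (s τ⁻¹))).ne_zero h
  refine Pool.Agent.X274.TH.hom_zero (L := AlgebraicClosure ℚ_[ℓ]) (ρ ℓ i (s τ⁻¹))
    (ρ ℓ j (s τ⁻¹)) k ?_ Z ?_
  · intro x' y' hx' hy' hxy
    rw [hci] at hx'
    rw [hcj] at hy'
    obtain ⟨x, hx, rfl⟩ := lift_root ℓ ι (hne i hci) hx'
    obtain ⟨y, hy, rfl⟩ := lift_root ℓ ι (hne j hcj) hy'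
    rw [← map_pow, ← map_pow] at hxy
    refine hroots k hk0 (jc x) (jc y) (push_C jc hx) (push_C jc hy) ?_
    rw [← map_pow, ← map_pow, ι.injective hxy]
  · have := hZ _ hk
    rw [map_pow, map_pow] at this
    exact this

end Pool.Agent.X274.PR
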