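import Mathlib

/-!
# Block diagonal matrices with numbered rows

`big A` is the block diagonal matrix with the blocks `A i`, as a matrix with the rows
`0, ..., n - 1`.
-/

set_option autoImplicit false
set_option linter.unusedSectionVars false

open Matrix

namespace Pool.Agent.X274.PR

section

variable {F : Type} [Field F] {I : Type} [Fintype I] [DecidableEq I] (N : I → ℕ)

/-- the number of all rows -/
abbrev tot : ℕ := Fintype.card (Σ i, Fin (N i))

/-- the numbering of the rows -/
noncomputable def num : (Σ i, Fin (N i)) ≃ Fin (tot N) := Fintype.equivFin _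

variable (F) in
/-- the decomposition of a vector -/
noncomputable def dec : (Fin (tot N) → F) ≃ₗ[F] (∀ i, Fin (N i) → F) where
  toFun x i a := x (num N ⟨i, a⟩)
  invFun v b := v ((num N).symm b).1 ((num N).symm b).2
  left_inv x := by
    funext b
    show x (num N ⟨((num N).symm b).1, ((num N).symm b).2⟩) = x b
    rw [Sigma.eta, Equiv.apply_symm_apply]
  right_inv v := by
    funext i a
    show v ((num N).symm (num N ⟨i, a⟩)).1 ((num N).symm (num N ⟨i, a⟩)).2 = v i a
    rw [Equiv.symm_apply_apply]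
  map_add' x y := rfl
  map_smul' c x := rfl

variable {N}

theorem dec_apply (x : Fin (tot N) → F) (i : I) (a : Fin (N i)) : dec F N x i a = x (num N ⟨i, a⟩) :=
  rfl

/-- the block diagonal matrix -/
noncomputable def big (A : ∀ i, Matrix (Fin (N i)) (Fin (N i)) F) :
    Matrix (Fin (tot N)) (Fin (tot N)) F :=
  (blockDiagonal' A).submatrix (num N).symm (num N).symm

theorem big_apply (A : ∀ i, Matrix (Fin (N i)) (Fin (N i)) F) (i j : I) (a : Fin (N i))
    (b : Fin (N j)) : big A (num N ⟨i, a⟩) (num N ⟨j, b⟩) = blockDiagonal' A ⟨i, a⟩ ⟨j, b⟩ := by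
  unfold big
  rw [submatrix_apply, Equiv.symm_apply_apply, Equiv.symm_apply_apply]

theorem big_same (A : ∀ i, Matrix (Fin (N i)) (Fin (N i)) F) (i : I) (a b : Fin (N i)) :
    big A (num N ⟨i, a⟩) (num N ⟨i, b⟩) = A i a b := by
  rw [big_apply, blockDiagonal'_apply_eq]

theorem big_ne (A : ∀ i, Matrix (Fin (N i)) (Fin (N i)) F) {i j : I} (h : i ≠ j) (a : Fin (N i))
    (b : Fin (N j)) : big A (num N ⟨i, a⟩) (num N ⟨j, b⟩) = 0 := by
  rw [big_apply, blockDiagonal'_apply_ne _ _ _ h]

/-- the blocks of a matrix -/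
noncomputable def blk (X : Matrix (Fin (tot N)) (Fin (tot N)) F) (i j : I) : Matrix (Fin (N i)) (Fin (N j)) F :=
  Matrix.of fun a b => X (num N ⟨i, a⟩) (num N ⟨j, b⟩)

theorem ext_blk {X Y : Matrix (Fin (tot N)) (Fin (tot N)) F} (h : ∀ i j, blk X i j = blk Y i j) :
    X = Y := by
  ext p q
  obtain ⟨⟨i, a⟩, rfl⟩ := (num N).surjective p
  obtain ⟨⟨j, b⟩, rfl⟩ := (num N).surjective q
  exact congrFun (congrFun (h i j) a) b

theorem blk_big (A : ∀ i, Matrix (Fin (N i)) (Fin (N i)) F) (i : I) : blk (big A) i i = A i := by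
  ext a b
  exact big_same A i a b

theorem blk_big_ne (A : ∀ i, Matrix (Fin (N i)) (Fin (N i)) F) {i j : I} (h : i ≠ j) :
    blk (big A) i j = 0 := by
  ext a b
  exact big_ne A h a b

theorem sum_num {M : Type} [AddCommMonoid M] (f : Fin (tot N) → M) :
    ∑ p, f p = ∑ i, ∑ a, f (num N ⟨i, a⟩) := by
  rw [← (num N).sum_comp f, Fintype.sum_sigma]

theorem blk_mul (X Y : Matrix (Fin (tot N)) (Fin (tot N)) F) (i j : I) :
    blk (X * Y) i j = ∑ k, blk X i k * blk Y k j := by
  ext a b
  rw [Matrix.sum_apply]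
  show (X * Y) (num N ⟨i, a⟩) (num N ⟨j, b⟩) = _
  rw [Matrix.mul_apply, sum_num]
  refine Finset.sum_congr rfl fun k _ => ?_
  rw [Matrix.mul_apply]
  rfl

theorem blk_mul_big (X : Matrix (Fin (tot N)) (Fin (tot N)) F)
    (A : ∀ i, Matrix (Fin (N i)) (Fin (N i)) F) (i j : I) :
    blk (X * big A) i j = blk X i j * A j := by
  rw [blk_mul, Finset.sum_eq_single j]
  · rw [blk_big]
  · intro k _ hk
    rw [blk_big_ne A hk, Matrix.mul_zero]
  · intro h
    exact absurd (Finset.mem_univ _) h

theorem blk_big_mul (X : Matrix (Fin (tot N)) (Fin (tot N)) F)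
    (A : ∀ i, Matrix (Fin (N i)) (Fin (N i)) F) (i j : I) :
    blk (big A * X) i j = A i * blk X i j := by
  rw [blk_mul, Finset.sum_eq_single i]
  · rw [blk_big]
  · intro k _ hk
    rw [blk_big_ne A (Ne.symm hk), Matrix.zero_mul]
  · intro h
    exact absurd (Finset.mem_univ _) h

theorem eq_big {X : Matrix (Fin (tot N)) (Fin (tot N)) F} (h : ∀ i j, i ≠ j → blk X i j = 0) :
    X = big (fun i => blk X i i) := by
  refine ext_blk fun i j => ?_
  by_cases hij : i = j
  · subst hij
    rw [blk_big]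
  · rw [h i j hij, blk_big_ne _ hij]

theorem big_inj {A B : ∀ i, Matrix (Fin (N i)) (Fin (N i)) F} (h : big A = big B) : A = B := by
  funext i
  rw [← blk_big A i, h, blk_big]

theorem big_mul (A B : ∀ i, Matrix (Fin (N i)) (Fin (N i)) F) : big (A * B) = big A * big B := by
  refine ext_blk fun i j => ?_
  rw [blk_mul_big]
  by_cases hij : i = j
  · subst hij
    rw [blk_big, blk_big]
    rfl
  · rw [blk_big_ne _ hij, blk_big_ne _ hij, Matrix.zero_mul]

theorem big_add (A B : ∀ i, Matrix (Fin (N i)) (Fin (N i)) F) : big (A + B) = big A + big B := by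
  unfold big
  rw [blockDiagonal'_add]
  rfl

theorem big_smul (c : F) (A : ∀ i, Matrix (Fin (N i)) (Fin (N i)) F) :
    big (c • A) = c • big A := by
  unfold big
  rw [blockDiagonal'_smul]
  rfl

theorem big_one : big (1 : ∀ i, Matrix (Fin (N i)) (Fin (N i)) F) = 1 := by
  unfold big
  rw [blockDiagonal'_one, submatrix_one_equiv]

theorem big_zero : big (0 : ∀ i, Matrix (Fin (N i)) (Fin (N i)) F) = 0 := by
  unfold big
  rw [blockDiagonal'_zero]
  rfl

theorem big_transpose (A : ∀ i, Matrix (Fin (N i)) (Fin (N i)) F) :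
    (big A)ᵀ = big (fun i => (A i)ᵀ) := by
  unfold big
  rw [transpose_submatrix, blockDiagonal'_transpose]

/-- `big` as a homomorphism of algebras -/
noncomputable def bigHom : (∀ i, Matrix (Fin (N i)) (Fin (N i)) F) →ₐ[F]
    Matrix (Fin (tot N)) (Fin (tot N)) F :=
  AlgHom.ofLinearMap
    { toFun := big
      map_add' := big_add
      map_smul' := fun c A => big_smul c A } big_one big_mul

theorem bigHom_apply (A : ∀ i, Matrix (Fin (N i)) (Fin (N i)) F) : bigHom A = big A := rfl

theorem big_neg (A : ∀ i, Matrix (Fin (N i)) (Fin (N i)) F) : big (-A) = -big A := by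
  rw [← bigHom_apply, map_neg, bigHom_apply]

theorem det_big_ne {A : ∀ i, Matrix (Fin (N i)) (Fin (N i)) F} (h : ∀ i, (A i).det ≠ 0) :
    (big A).det ≠ 0 := by
  have h1 : big A * big (fun i => (A i)⁻¹) = 1 := by
    rw [← big_mul, ← big_one]
    congr 1
    funext i
    exact Matrix.mul_nonsing_inv _ (isUnit_iff_ne_zero.2 (h i))
  intro h0
  have h2 := congrArg Matrix.det h1
  rw [Matrix.det_mul, h0, zero_mul, Matrix.det_one] at h2
  exact zero_ne_one h2

theorem dec_mulVec (A : ∀ i, Matrix (Fin (N i)) (Fin (N i)) F) (x : Fin (tot N) → F) (i : I) :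
    dec F N (big A *ᵥ x) i = A i *ᵥ dec F N x i := by
  funext a
  rw [dec_apply]
  unfold Matrix.mulVec dotProduct
  rw [sum_num, Finset.sum_eq_single i]
  · refine Finset.sum_congr rfl fun b _ => ?_
    show big A (num N ⟨i, a⟩) (num N ⟨i, b⟩) * x (num N ⟨i, b⟩) = A i a b * dec F N x i b
    rw [big_same, dec_apply]
  · intro j _ hj
    refine Finset.sum_eq_zero fun b _ => ?_
    show big A (num N ⟨i, a⟩) (num N ⟨j, b⟩) * x (num N ⟨j, b⟩) = 0
    rw [big_ne A (Ne.symm hj), zero_mul]
  · intro h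
    exact absurd (Finset.mem_univ _) h

theorem dot_dec (x y : Fin (tot N) → F) : x ⬝ᵥ y = ∑ i, dec F N x i ⬝ᵥ dec F N y i := by
  unfold dotProduct
  rw [sum_num]
  rfl

end

/-- the characteristic polynomial -/
theorem charpoly_big {F : Type} [Field F] {r : ℕ} {N : Fin r → ℕ}
    (A : ∀ i, Matrix (Fin (N i)) (Fin (N i)) F) : (big A).charpoly = ∏ i, (A i).charpoly := by
  have h1 : (big A).charpoly = (blockDiagonal' A).charpoly := by
    have : big A = (blockDiagonal' A).reindex (num N) (num N) := rfl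
    rw [this, Matrix.charpoly_reindex]
  rw [h1]
  unfold Matrix.charpoly
  have h2 : charmatrix (blockDiagonal' A) = blockDiagonal' (fun i => charmatrix (A i)) := by
    ext ⟨i, a⟩ ⟨j, b⟩
    by_cases hij : i = j
    · subst hij
      rw [blockDiagonal'_apply_eq]
      by_cases hab : a = b
      · subst hab
        rw [charmatrix_apply_eq, charmatrix_apply_eq, blockDiagonal'_apply_eq]
      · rw [charmatrix_apply_ne _ _ _ (fun h => hab (by simpa using h)),
          charmatrix_apply_ne _ _ _ hab, blockDiagonal'_apply_eq]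
    · rw [blockDiagonal'_apply_ne _ _ _ hij,
        charmatrix_apply_ne _ _ _ (fun h => hij (congrArg Sigma.fst h)),
        blockDiagonal'_apply_ne _ _ _ hij, map_zero, neg_zero]
  rw [h2, (blockTriangular_blockDiagonal' _).det_fintype]
  refine Finset.prod_congr rfl fun k _ => ?_
  have h3 : (toSquareBlock (blockDiagonal' fun i => charmatrix (A i)) Sigma.fst k) =
      (charmatrix (A k)).submatrix (Equiv.sigmaSubtype k) (Equiv.sigmaSubtype k) := by
    ext ⟨⟨i, a⟩, hi⟩ ⟨⟨j, b⟩, hj⟩
    have hi' : i = k := hi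
    have hj' : j = k := hj
    subst hi'
    subst hj'
    rw [toSquareBlock_def, Matrix.of_apply, blockDiagonal'_apply_eq]
    rfl
  rw [h3, det_submatrix_equiv_self]

end Pool.Agent.X274.PR
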