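import Mathlib

set_option autoImplicit false

/-!
# Characters of `GL_1` and `GL_d` as functors of points
-/

namespace Pool.Agent.X274.PR

open Polynomial LaurentPolynomial

/-- the units of `ℚ[T, T⁻¹]` are the monomials -/
theorem unit_laurent (u : ℚ[T;T⁻¹]ˣ) : ∃ (c : ℚ) (k : ℤ), c ≠ 0 ∧ (u : ℚ[T;T⁻¹]) = LaurentPolynomial.C c * T k := by
  obtain ⟨m, p, hp⟩ := LaurentPolynomial.exists_T_pow (u : ℚ[T;T⁻¹])
  obtain ⟨n, q, hq⟩ := LaurentPolynomial.exists_T_pow ((u⁻¹ : ℚ[T;T⁻¹]ˣ) : ℚ[T;T⁻¹])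
  have h1 : toLaurent (p * q) = toLaurent (X ^ (m + n) : ℚ[X]) := by
    rw [map_mul, hp, hq, mul_mul_mul_comm, Units.mul_inv, one_mul, ← T_add, Polynomial.toLaurent_X_pow]
    push_cast
    rfl
  have h2 : p * q = X ^ (m + n) := Polynomial.toLaurent_injective h1
  obtain ⟨i, -, hi⟩ := (dvd_prime_pow Polynomial.prime_X _).1 (Dvd.intro _ h2)
  obtain ⟨v, hv⟩ := hi
  obtain ⟨c, hc, hcv⟩ := Polynomial.isUnit_iff.1 v⁻¹.isUnit
  refine ⟨c, (i : ℤ) - m, hc.ne_zero, ?_⟩
  have h3 : p = Polynomial.C c * X ^ i := by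
    rw [hcv, ← hv, mul_comm, mul_assoc, Units.mul_inv, mul_one]
  have h4 : (u : ℚ[T;T⁻¹]) = toLaurent p * T (-m) := by
    rw [hp, mul_assoc, ← T_add, add_neg_cancel, T_zero, mul_one]
  rw [h4, h3, map_mul, Polynomial.toLaurent_C, Polynomial.toLaurent_X_pow, mul_assoc, ← T_add, sub_eq_add_neg]

/-- the evaluation of Laurent polynomials at a unit -/
noncomputable def ev (A : Type) [CommRing A] [Algebra ℚ A] (u : Aˣ) : ℚ[T;T⁻¹] →ₐ[ℚ] A :=
  AddMonoidAlgebra.lift ℚ A ℤ ((Units.coeHom A).comp (zpowersHom Aˣ u))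

theorem ev_T (A : Type) [CommRing A] [Algebra ℚ A] (u : Aˣ) (k : ℤ) : ev A u (T k) = ((u ^ k : Aˣ) : A) := by
  unfold ev T
  rw [AddMonoidAlgebra.lift_single]
  simp

theorem ev_C (A : Type) [CommRing A] [Algebra ℚ A] (u : Aˣ) (c : ℚ) :
    ev A u (LaurentPolynomial.C c) = algebraMap ℚ A c := by
  have : (LaurentPolynomial.C c : ℚ[T;T⁻¹]) = algebraMap ℚ ℚ[T;T⁻¹] c := rfl
  rw [this, AlgHom.commutes]

/-- the unit `T` -/
noncomputable def unitT : ℚ[T;T⁻¹]ˣ := ⟨T 1, T (-1), by rw [← T_add]; simp, by rw [← T_add]; simp⟩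

theorem ev_unitT (A : Type) [CommRing A] [Algebra ℚ A] (u : Aˣ) :
    Units.map (ev A u : ℚ[T;T⁻¹] →* A) unitT = u := by
  ext
  show ev A u (T 1) = u
  rw [ev_T, zpow_one]

/-- A natural family of homomorphisms `Aˣ → Aˣ` is a power. -/
theorem natChar (φ : ∀ (A : Type) [CommRing A] [Algebra ℚ A], Aˣ →* Aˣ)
    (nat : ∀ (A B : Type) [CommRing A] [Algebra ℚ A] [CommRing B] [Algebra ℚ B] (f : A →ₐ[ℚ] B) (u : Aˣ),
      φ B (Units.map (f : A →* B) u) = Units.map (f : A →* B) (φ A u)) :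
    ∃ k : ℤ, ∀ (A : Type) [CommRing A] [Algebra ℚ A] (u : Aˣ), φ A u = u ^ k := by
  obtain ⟨c, k, -, h⟩ := unit_laurent (φ ℚ[T;T⁻¹] unitT)
  have key : ∀ (A : Type) [CommRing A] [Algebra ℚ A] (u : Aˣ),
      ((φ A u : Aˣ) : A) = algebraMap ℚ A c * ((u ^ k : Aˣ) : A) := by
    intro A _ _ u
    have h1 := nat _ A (ev A u) unitT
    rw [ev_unitT] at h1
    rw [h1]
    show ev A u (φ ℚ[T;T⁻¹] unitT : ℚ[T;T⁻¹]) = _
    rw [h, map_mul, ev_C, ev_T]
  have hc : c = 1 := by
    have h1 := key ℚ 1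
    rw [map_one, one_zpow] at h1
    simpa using h1.symm
  refine ⟨k, fun A _ _ u => Units.ext ?_⟩
  rw [key, hc, map_one, one_mul]

/-! ### Characters of `GL_d` -/

open Matrix

section GLd

variable {d : ℕ}

/-- the diagonal matrices -/
def dg (d : ℕ) (A : Type) [CommRing A] : (Fin d → Aˣ) →* GL (Fin d) A where
  toFun v := ⟨diagonal fun i => (v i : A), diagonal fun i => ((v i)⁻¹ : Aˣ), by
    rw [diagonal_mul_diagonal]; simp, by rw [diagonal_mul_diagonal]; simp⟩
  map_one' := by ext i j; simp [diagonal_apply, Matrix.one_apply]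
  map_mul' v w := by
    apply Units.ext
    show diagonal _ = diagonal _ * diagonal _
    rw [diagonal_mul_diagonal]
    rfl

theorem dg_val (A : Type) [CommRing A] (v : Fin d → Aˣ) :
    ((dg d A v : GL (Fin d) A) : Matrix (Fin d) (Fin d) A) = diagonal fun i => (v i : A) := rfl

theorem dg_map (A B : Type) [CommRing A] [Algebra ℚ A] [CommRing B] [Algebra ℚ B] (f : A →ₐ[ℚ] B)
    (v : Fin d → Aˣ) :
    Matrix.GeneralLinearGroup.map (n := Fin d) (f : A →+* B) (dg d A v) =
      dg d B (fun i => Units.map (f : A →* B) (v i)) := by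
  apply Units.ext
  show (diagonal fun i => (v i : A)).map f = _
  rw [dg_val, diagonal_map (map_zero f)]
  rfl

/-- a permutation matrix -/
def pm (A : Type) [CommRing A] (σ : Equiv.Perm (Fin d)) : GL (Fin d) A :=
  ⟨(1 : Matrix (Fin d) (Fin d) A).submatrix σ id, (1 : Matrix (Fin d) (Fin d) A).submatrix id σ, by
    rw [← submatrix_mul 1 1 σ id σ Function.bijective_id, mul_one]
    ext i j
    simp [Matrix.one_apply], by
    rw [← submatrix_mul 1 1 id σ id σ.bijective, mul_one, submatrix_id_id]⟩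

theorem pm_dg (A : Type) [CommRing A] (σ : Equiv.Perm (Fin d)) (v : Fin d → Aˣ) :
    pm A σ * dg d A v = dg d A (v ∘ σ) * pm A σ := by
  apply Units.ext
  show (1 : Matrix (Fin d) (Fin d) A).submatrix σ id * diagonal _ =
    diagonal _ * (1 : Matrix (Fin d) (Fin d) A).submatrix σ id
  ext i j
  rw [mul_diagonal, diagonal_mul]
  by_cases h : σ i = j
  · subst h
    exact mul_comm _ _
  · simp [h]

/-- a transvection -/
def tv (A : Type) [CommRing A] (i j : Fin d) (h : i ≠ j) (c : A) : GL (Fin d) A :=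
  ⟨transvection i j c, transvection i j (-c), by rw [transvection_mul_transvection_same _ _ h]; simp,
    by rw [transvection_mul_transvection_same _ _ h]; simp⟩

theorem tv_two (A : Type) [CommRing A] (i j : Fin d) (h : i ≠ j) (c : A) :
    tv A i j h (2 * c) = tv A i j h c * tv A i j h c := by
  apply Units.ext
  show transvection i j _ = transvection i j c * transvection i j c
  rw [transvection_mul_transvection_same _ _ h, two_mul]

theorem dg_tv (A : Type) [CommRing A] (i j : Fin d) (h : i ≠ j) (c : A) (u : Aˣ) :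
    dg d A (Function.update 1 i u) * tv A i j h c = tv A i j h (u * c) * dg d A (Function.update 1 i u) := by
  apply Units.ext
  show diagonal _ * transvection i j c = transvection i j (u * c) * diagonal _
  ext a b
  rw [diagonal_mul, mul_diagonal]
  by_cases hab : a = b
  · subst hab
    by_cases ha : a = i
    · subst ha
      simp [transvection, Matrix.single_apply, h.symm]
    · simp [transvection, Matrix.single_apply, ha, Ne.symm ha]
  · by_cases ha : a = i
    · subst ha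
      by_cases hb : b = j
      · subst hb
        simp [transvection, Matrix.single_apply, hab, h.symm]
      · simp [transvection, Matrix.single_apply, hab, Ne.symm hb, hb]
    · simp [transvection, Matrix.single_apply, hab, ha, Ne.symm ha]

/-- a natural family of homomorphisms `GL_d(A) → Aˣ` -/
structure Char (d : ℕ) where
  /-- the homomorphisms -/
  F : ∀ (A : Type) [CommRing A] [Algebra ℚ A], GL (Fin d) A →* Aˣ
  nat : ∀ (A B : Type) [CommRing A] [Algebra ℚ A] [CommRing B] [Algebra ℚ B] (f : A →ₐ[ℚ] B) (g : GL (Fin d) A),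
      F B (Matrix.GeneralLinearGroup.map (f : A →+* B) g) = Units.map (f : A →* B) (F A g)

/-- **characters of `GL_d` are powers of the determinant** (on diagonal matrices, and over `ℂ`) -/
theorem Char.det_pow (χ : Char d) : ∃ k : ℤ,
    (∀ (A : Type) [CommRing A] [Algebra ℚ A] (v : Fin d → Aˣ), χ.F A (dg d A v) = (∏ i, v i) ^ k) ∧
    ∀ g : GL (Fin d) ℂ, χ.F ℂ g = (Matrix.GeneralLinearGroup.det g) ^ k := by
  classical
  -- the characters on the coordinates
  have h1 : ∀ i : Fin d, ∃ k : ℤ, ∀ (A : Type) [CommRing A] [Algebra ℚ A] (u : Aˣ),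
      χ.F A (dg d A (Pi.mulSingle i u)) = u ^ k := by
    intro i
    refine natChar (fun A _ _ => (χ.F A).comp ((dg d A).comp (MonoidHom.mulSingle (fun _ => Aˣ) i))) ?_
    intro A B _ _ _ _ f u
    show χ.F B (dg d B (Pi.mulSingle i _)) = Units.map _ (χ.F A (dg d A (Pi.mulSingle i u)))
    rw [← χ.nat, dg_map]
    congr 2
    ext j
    by_cases hj : j = i
    · subst hj
      simp
    · simp [Pi.mulSingle_eq_of_ne hj]
  choose k hk using h1
  -- they agree
  have h2 : ∀ i j, k i = k j := by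
    intro i j
    have e1 := pm_dg ℂ (Equiv.swap i j) (Pi.mulSingle i (Units.mk0 (2 : ℂ) two_ne_zero))
    have e2 : (Pi.mulSingle i (Units.mk0 (2 : ℂ) two_ne_zero) : Fin d → ℂˣ) ∘ (Equiv.swap i j) =
        Pi.mulSingle j (Units.mk0 (2 : ℂ) two_ne_zero) := by
      ext l
      simp only [Function.comp_apply, Pi.mulSingle_apply]
      congr 2
      rw [Equiv.swap_apply_eq_iff, Equiv.swap_apply_left]
    rw [e2] at e1
    have e3 := congrArg (χ.F ℂ) e1
    rw [map_mul, map_mul, mul_comm, mul_right_cancel_iff] at e3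
    rw [hk, hk] at e3
    have e4 := congrArg (fun u : ℂˣ => ‖(u : ℂ)‖) e3
    simp only [Units.val_zpow_eq_zpow_val, Units.val_mk0, norm_zpow, Complex.norm_ofNat] at e4
    exact zpow_right_injective₀ (by norm_num : (0 : ℝ) < 2) (by norm_num) e4
  obtain ⟨m, hm⟩ : ∃ m : ℤ, ∀ i, k i = m := by
    by_cases hd : ∃ i : Fin d, True
    · obtain ⟨i, -⟩ := hd
      exact ⟨k i, fun j => h2 j i⟩
    · exact ⟨0, fun i => absurd ⟨i, trivial⟩ hd⟩
  have h3 : ∀ (A : Type) [CommRing A] [Algebra ℚ A] (v : Fin d → Aˣ), χ.F A (dg d A v) = (∏ i, v i) ^ m := by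
    intro A _ _ v
    show ((χ.F A).comp (dg d A)) v = _
    conv_lhs => rw [← Finset.univ_prod_mulSingle v]
    rw [map_prod, ← Finset.prod_zpow]
    refine Finset.prod_congr rfl fun i _ => ?_
    show χ.F A (dg d A (Pi.mulSingle i (v i))) = _
    rw [hk, hm]
  refine ⟨m, h3, ?_⟩
  -- transvections
  have h4 : ∀ (i j : Fin d) (h : i ≠ j) (c : ℂ), χ.F ℂ (tv ℂ i j h c) = 1 := by
    intro i j h c
    have e1 := congrArg (χ.F ℂ) (dg_tv ℂ i j h c (Units.mk0 (2 : ℂ) two_ne_zero))
    rw [map_mul, map_mul, mul_comm, mul_right_cancel_iff, Units.val_mk0, tv_two, map_mul] at e1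
    exact mul_eq_left.1 e1.symm
  have h5 : ∀ L : List (TransvectionStruct (Fin d) ℂ), ∃ g : GL (Fin d) ℂ,
      (g : Matrix (Fin d) (Fin d) ℂ) = (L.map TransvectionStruct.toMatrix).prod ∧ χ.F ℂ g = 1 ∧
      Matrix.GeneralLinearGroup.det g = 1 := by
    intro L
    induction L with
    | nil => exact ⟨1, rfl, map_one _, map_one _⟩
    | cons t L ih =>
      obtain ⟨g, g1, g2, g3⟩ := ih
      refine ⟨tv ℂ t.i t.j t.hij t.c * g, ?_, ?_, ?_⟩
      · rw [List.map_cons, List.prod_cons, Units.val_mul, g1]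
        rfl
      · rw [map_mul, h4, g2, mul_one]
      · rw [map_mul, g3, mul_one]
        apply Units.ext
        exact det_transvection_of_ne _ _ t.hij t.c
  intro g
  obtain ⟨L, L', D, hD⟩ := Pivot.exists_list_transvec_mul_diagonal_mul_list_transvec
    (g : Matrix (Fin d) (Fin d) ℂ)
  obtain ⟨a, a1, a2, a3⟩ := h5 L
  obtain ⟨b, b1, b2, b3⟩ := h5 L'
  have hdet : IsUnit (diagonal D).det := by
    have e1 : (diagonal D) = ((a⁻¹ * g * b⁻¹ : GL (Fin d) ℂ) : Matrix (Fin d) (Fin d) ℂ) := by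
      rw [Units.val_mul, Units.val_mul, hD, ← a1, ← b1]
      rw [mul_assoc, mul_assoc, mul_assoc, Units.mul_inv, mul_one, ← mul_assoc, Units.inv_mul, one_mul]
    rw [e1]
    exact (Matrix.isUnit_iff_isUnit_det _).1 (Units.isUnit _)
  rw [det_diagonal] at hdet
  have hne : ∀ i, D i ≠ 0 := fun i h0 => hdet.ne_zero (Finset.prod_eq_zero (Finset.mem_univ i) h0)
  have hg : g = a * dg d ℂ (fun i => Units.mk0 (D i) (hne i)) * b := by
    apply Units.ext
    rw [Units.val_mul, Units.val_mul, a1, b1, hD]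
    rfl
  rw [hg, map_mul, map_mul, a2, b2, one_mul, mul_one, h3, map_mul, map_mul, a3, b3, one_mul, mul_one]
  congr 1
  apply Units.ext
  show _ = (diagonal _).det
  rw [det_diagonal]
  simp

end GLd

end Pool.Agent.X274.PR
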