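import Pool.Agent.X274.PR.Emb

set_option autoImplicit false

/-!
# The core: representations and anticommuting involutions
-/

namespace Pool.Agent.X274.PR

open Matrix

/-- an involution as an element of the general linear group -/
def invol {N : ℕ} (F : Matrix (Fin N) (Fin N) ℚ) (h : F * F = 1) : GL (Fin N) ℚ := ⟨F, F, h, h⟩

/-- a rational matrix over `A` -/
abbrev bcG (A : Type) [CommRing A] [Algebra ℚ A] {N : ℕ} (g : GL (Fin N) ℚ) : GL (Fin N) A :=
  Matrix.GeneralLinearGroup.map (algebraMap ℚ A) g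

theorem bcG_val (A : Type) [CommRing A] [Algebra ℚ A] {N : ℕ} (g : GL (Fin N) ℚ) :
    ((bcG A g : GL (Fin N) A) : Matrix (Fin N) (Fin N) A) = bc A (g : Matrix (Fin N) (Fin N) ℚ) := rfl

section

variable {N r : ℕ} {F : Matrix (Fin N) (Fin N) ℚ} (hF : F * F = 1) {F' : Matrix (Fin r) (Fin r) ℚ}
  (ρ : AlgRep N r) (Φ : GL (Fin r) ℚ)
  (frob : F' = (ρ.map ℚ (invol F hF) : Matrix (Fin r) (Fin r) ℚ) * (Φ : Matrix (Fin r) (Fin r) ℚ))
  (comm : ∀ (A : Type) [CommRing A] [Algebra ℚ A] (g : GL (Fin N) A), ρ.map A g * bcG A Φ = bcG A Φ * ρ.map A g)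

theorem rho_bcG (A : Type) [CommRing A] [Algebra ℚ A] (g : GL (Fin N) ℚ) :
    ρ.map A (bcG A g) = bcG A (ρ.map ℚ g) :=
  ρ.nat ℚ A (Algebra.ofId ℚ A) g

include frob comm

theorem rho_F (A : Type) [CommRing A] [Algebra ℚ A] (X : GL (Fin N) A)
    (h : (X : Matrix (Fin N) (Fin N) A) * bc A F = bc A F * (X : Matrix (Fin N) (Fin N) A)) :
    (ρ.map A X : Matrix (Fin r) (Fin r) A) * bc A F' = bc A F' * (ρ.map A X : Matrix (Fin r) (Fin r) A) := by
  have h1 : X * bcG A (invol F hF) = bcG A (invol F hF) * X := Units.ext h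
  have h2 := congrArg (ρ.map A) h1
  rw [map_mul, map_mul, rho_bcG] at h2
  have h3 : bc A F' = ((bcG A (ρ.map ℚ (invol F hF)) * bcG A Φ : GL (Fin r) A) : Matrix (Fin r) (Fin r) A) := by
    rw [Units.val_mul, bcG_val, bcG_val, ← bc_mul, ← frob]
  rw [h3, ← Units.val_mul, ← Units.val_mul]
  congr 1
  rw [← mul_assoc, h2, mul_assoc, comm A X, mul_assoc]

theorem rho_F_anti (odd : ρ.map ℚ (-1) = -1) (A : Type) [CommRing A] [Algebra ℚ A] (X : GL (Fin N) A)
    (h : (X : Matrix (Fin N) (Fin N) A) * bc A F = -(bc A F * (X : Matrix (Fin N) (Fin N) A))) :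
    (ρ.map A X : Matrix (Fin r) (Fin r) A) * bc A F' = -(bc A F' * (ρ.map A X : Matrix (Fin r) (Fin r) A)) := by
  have hneg : ∀ {M : ℕ}, bcG A (-1 : GL (Fin M) ℚ) = -1 := by
    intro M
    apply Units.ext
    rw [bcG_val]
    ext i j
    by_cases hij : i = j
    · subst hij
      simp
    · simp [hij]
  have h1 : X * bcG A (invol F hF) = (-1) * (bcG A (invol F hF) * X) := by
    apply Units.ext
    rw [neg_one_mul]
    exact h
  have h2 := congrArg (ρ.map A) h1
  rw [map_mul, map_mul, map_mul, rho_bcG, ← hneg, rho_bcG, odd, hneg, neg_one_mul] at h2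
  have h3 : bc A F' = ((bcG A (ρ.map ℚ (invol F hF)) * bcG A Φ : GL (Fin r) A) : Matrix (Fin r) (Fin r) A) := by
    rw [Units.val_mul, bcG_val, bcG_val, ← bc_mul, ← frob]
  rw [h3, ← Units.val_mul, ← Units.val_mul, ← Units.val_neg]
  congr 1
  rw [← mul_assoc, h2, neg_mul, mul_assoc, comm A X, mul_assoc]

variable {n m : ℕ} (a : Adapt F n) (b : Adapt F' m)

/-- a block of `ρ (diag (1, g))` -/
noncomputable def chi (s : Bool) (A : Type) [CommRing A] [Algebra ℚ A] : GL (Fin n) A →* Aˣ :=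
  b.blk s ((ρ.map A).comp (a.emb A)) fun g => rho_F hF ρ Φ frob comm A _ (a.emb_F A g)

theorem chi_nat (s : Bool) {A B : Type} [CommRing A] [Algebra ℚ A] [CommRing B] [Algebra ℚ B] (f : A →ₐ[ℚ] B)
    (g : GL (Fin n) A) : chi hF ρ Φ frob comm a b s B (Matrix.GeneralLinearGroup.map (f : A →+* B) g) =
      Units.map (f : A →* B) (chi hF ρ Φ frob comm a b s A g) := by
  apply Units.ext
  show (bc B (b.C s) * (ρ.map B (a.emb B (Matrix.GeneralLinearGroup.map (f : A →+* B) g)) : Matrix (Fin r) (Fin r) B) *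
    bc B (b.B s)).det = f ((bc A (b.C s) * (ρ.map A (a.emb A g) : Matrix (Fin r) (Fin r) A) * bc A (b.B s)).det)
  rw [← a.emb_nat, ρ.nat, ← AlgHom.coe_toRingHom f, RingHom.map_det]
  congr 1
  rw [RingHom.mapMatrix_apply, Matrix.map_mul, Matrix.map_mul]
  have e1 := Adapt.map_bc f (b.C s)
  have e2 := Adapt.map_bc f (b.B s)
  rw [AlgHom.coe_toRingHom, e1, e2]
  rfl

/-- the quotient of the two blocks -/
noncomputable def chiC : Char n where
  F A := (chi hF ρ Φ frob comm a b false A) * (chi hF ρ Φ frob comm a b true A)⁻¹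
  nat A B _ _ _ _ f g := by
    rw [MonoidHom.mul_apply, MonoidHom.inv_apply, MonoidHom.mul_apply, MonoidHom.inv_apply, chi_nat, chi_nat,
      map_mul, map_inv]

/-- the values at `1 + ε` -/
theorem chi_eps (s : Bool) :
    ((chi hF ρ Φ frob comm a b s (DualNumber ℚ) (dg n _ fun _ => unitEps) : (DualNumber ℚ)ˣ) : DualNumber ℚ) =
      1 + DualNumber.eps * algebraMap ℚ _ (ρ.der (a.e false) * b.e s).trace := by
  show (bc (DualNumber ℚ) (b.C s) *
    (ρ.map (DualNumber ℚ) (a.emb (DualNumber ℚ) (dg n (DualNumber ℚ) fun _ => unitEps)) :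
      Matrix (Fin r) (Fin r) (DualNumber ℚ)) * bc (DualNumber ℚ) (b.B s)).det = _
  rw [a.emb_tangent, ρ.map_tangent, Matrix.mul_add, Matrix.add_mul, Matrix.mul_one, b.bcCB, Matrix.mul_smul,
    Matrix.smul_mul, ← bc_mul, ← bc_mul, AlgRep.det_tangent]
  congr 3
  rw [Matrix.mul_assoc, Matrix.trace_mul_comm, Matrix.mul_assoc]

theorem chi_trace {k : ℤ} (hk : ∀ (A : Type) [CommRing A] [Algebra ℚ A] (v : Fin n → Aˣ),
    (chiC hF ρ Φ frob comm a b).F A (dg n A v) = (∏ i, v i) ^ k) :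
    (k : ℚ) * n = -(ρ.der (a.e false) * F').trace := by
  have h1 := hk (DualNumber ℚ) fun _ => unitEps
  rw [Finset.prod_const, Finset.card_univ, Fintype.card_fin] at h1
  have h2 : chi hF ρ Φ frob comm a b false (DualNumber ℚ) (dg n _ fun _ => unitEps) =
      unitEps ^ ((n : ℤ) * k) * chi hF ρ Φ frob comm a b true (DualNumber ℚ) (dg n _ fun _ => unitEps) := by
    rw [_root_.zpow_mul, zpow_natCast, ← h1]
    have h0 : ∀ x y : (DualNumber ℚ)ˣ, x = x * y⁻¹ * y := fun x y => (inv_mul_cancel_right x y).symm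
    exact h0 _ _
  have h3 := congrArg (fun u : (DualNumber ℚ)ˣ => (u : DualNumber ℚ)) h2
  simp only [Units.val_mul] at h3
  rw [chi_eps, chi_eps, unitEps_zpow] at h3
  have h4 : (1 + DualNumber.eps * algebraMap ℚ (DualNumber ℚ) (((n : ℤ) * k : ℤ) : ℚ)) *
      (1 + DualNumber.eps * algebraMap ℚ _ (ρ.der (a.e false) * b.e true).trace) =
      1 + DualNumber.eps * algebraMap ℚ _ ((((n : ℤ) * k : ℤ) : ℚ) + (ρ.der (a.e false) * b.e true).trace) := by
    have := DualNumber.eps_mul_eps (R := ℚ)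
    rw [map_add]
    linear_combination (algebraMap ℚ (DualNumber ℚ) (((n : ℤ) * k : ℤ) : ℚ) *
      algebraMap ℚ (DualNumber ℚ) (ρ.der (a.e false) * b.e true).trace) * this
  rw [h4] at h3
  have h5 := eps_inj' h3
  push_cast at h5
  have h6 : ρ.der (a.e false) * F' = ρ.der (a.e false) * b.e true - ρ.der (a.e false) * b.e false := by
    rw [← Matrix.mul_sub]
    congr 1
    exact b.diff.symm
  rw [h6, Matrix.trace_sub, h5]
  ring

/-! ### Scalars -/

/-- a block of `ρ (u · 1)` -/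
noncomputable def sca (s : Bool) (A : Type) [CommRing A] [Algebra ℚ A] : Aˣ →* Aˣ :=
  b.blk s ((ρ.map A).comp (Matrix.GeneralLinearGroup.scalar (Fin N))) fun u => rho_F hF ρ Φ frob comm A _ (by
    rw [Matrix.GeneralLinearGroup.coe_scalar]
    exact Matrix.scalar_commute _ (Commute.all _) _)

theorem sca_nat (s : Bool) {A B : Type} [CommRing A] [Algebra ℚ A] [CommRing B] [Algebra ℚ B] (f : A →ₐ[ℚ] B)
    (u : Aˣ) : sca hF ρ Φ frob comm b s B (Units.map (f : A →* B) u) =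
      Units.map (f : A →* B) (sca hF ρ Φ frob comm b s A u) := by
  apply Units.ext
  show (bc B (b.C s) * (ρ.map B (Matrix.GeneralLinearGroup.scalar (Fin N) (Units.map (f : A →* B) u)) :
    Matrix (Fin r) (Fin r) B) * bc B (b.B s)).det =
    f ((bc A (b.C s) * (ρ.map A (Matrix.GeneralLinearGroup.scalar (Fin N) u) : Matrix (Fin r) (Fin r) A) *
      bc A (b.B s)).det)
  have e0 : Matrix.GeneralLinearGroup.scalar (Fin N) (Units.map (f : A →* B) u) =
      Matrix.GeneralLinearGroup.map (f : A →+* B) (Matrix.GeneralLinearGroup.scalar (Fin N) u) :=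
    (Matrix.GeneralLinearGroup.map_scalar (f : A →+* B) u).symm
  rw [e0, ρ.nat, ← AlgHom.coe_toRingHom f, RingHom.map_det]
  congr 1
  rw [RingHom.mapMatrix_apply, Matrix.map_mul, Matrix.map_mul]
  have e1 := Adapt.map_bc f (b.C s)
  have e2 := Adapt.map_bc f (b.B s)
  rw [AlgHom.coe_toRingHom, e1, e2]
  rfl

omit frob comm in
theorem scalar_tangent : Matrix.GeneralLinearGroup.scalar (Fin N) unitEps = tangent (1 : Matrix (Fin N) (Fin N) ℚ) := by
  apply Units.ext
  rw [Matrix.GeneralLinearGroup.coe_scalar]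
  show _ = 1 + (DualNumber.eps : DualNumber ℚ) • bc (DualNumber ℚ) 1
  rw [bc_one]
  ext i j
  · by_cases h : i = j
    · subst h
      simp [unitEps]
    · simp [h]
  · by_cases h : i = j
    · subst h
      simp [unitEps]
    · simp [h]

theorem sca_eps (s : Bool) :
    ((sca hF ρ Φ frob comm b s (DualNumber ℚ) unitEps : (DualNumber ℚ)ˣ) : DualNumber ℚ) =
      1 + DualNumber.eps * algebraMap ℚ _ (ρ.der 1 * b.e s).trace := by
  show (bc (DualNumber ℚ) (b.C s) *
    (ρ.map (DualNumber ℚ) (Matrix.GeneralLinearGroup.scalar (Fin N) unitEps) :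
      Matrix (Fin r) (Fin r) (DualNumber ℚ)) * bc (DualNumber ℚ) (b.B s)).det = _
  rw [scalar_tangent, ρ.map_tangent, Matrix.mul_add, Matrix.add_mul, Matrix.mul_one, b.bcCB, Matrix.mul_smul,
    Matrix.smul_mul, ← bc_mul, ← bc_mul, AlgRep.det_tangent]
  congr 3
  rw [Matrix.mul_assoc, Matrix.trace_mul_comm, Matrix.mul_assoc]

include b in
/-- the trace of `F' dρ(1)` vanishes -/
theorem trace_scalar (JT : Matrix (Fin r) (Fin r) ℂ) (hTT : JT * JT = 1) (hTF : JT * bc ℂ F' = -(bc ℂ F' * JT))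
    (h2 : ∀ u : ℂˣ, (ρ.map ℂ (Matrix.GeneralLinearGroup.scalar (Fin N) u) : Matrix (Fin r) (Fin r) ℂ) * JT =
      JT * (ρ.map ℂ (Matrix.GeneralLinearGroup.scalar (Fin N) u) : Matrix (Fin r) (Fin r) ℂ)) :
    (ρ.der 1 * F').trace = 0 := by
  have h3 : ∀ s, ∃ k : ℤ, ∀ (A : Type) [CommRing A] [Algebra ℚ A] (u : Aˣ),
      sca hF ρ Φ frob comm b s A u = u ^ k := fun s =>
    natChar (fun A _ _ => sca hF ρ Φ frob comm b s A) fun A B _ _ _ _ f u => sca_nat hF ρ Φ frob comm b s f u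
  choose k hk using h3
  have htr : ∀ s, ((k s : ℤ) : ℚ) = (ρ.der 1 * b.e s).trace := by
    intro s
    have e1 := congrArg (fun u : (DualNumber ℚ)ˣ => (u : DualNumber ℚ)) (hk s (DualNumber ℚ) unitEps)
    rw [sca_eps, unitEps_zpow] at e1
    exact (eps_inj' e1).symm
  have hkk : k true = k false := by
    set u : ℂˣ := Units.mk0 (2 : ℂ) two_ne_zero with hu
    set X : Matrix (Fin r) (Fin r) ℂ := (ρ.map ℂ (Matrix.GeneralLinearGroup.scalar (Fin N) u) :
      Matrix (Fin r) (Fin r) ℂ) with hX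
    have hXF : X * bc ℂ F' = bc ℂ F' * X := rho_F hF ρ Φ frob comm ℂ _ (by
      rw [Matrix.GeneralLinearGroup.coe_scalar]
      exact Matrix.scalar_commute _ (Commute.all _) _)
    set P := bc ℂ (b.C false) * JT * bc ℂ (b.B true) with hP
    set Q := bc ℂ (b.C true) * JT * bc ℂ (b.B false) with hQ
    have e1 : Q * P = 1 := by
      rw [hQ, hP, Matrix.mul_assoc (bc ℂ (b.C true) * JT)]
      rw [show bc ℂ (b.B false) * (bc ℂ (b.C false) * JT * bc ℂ (b.B true)) = JT * bc ℂ (b.B true) from b.JB hTF true]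
      rw [← Matrix.mul_assoc, Matrix.mul_assoc (bc ℂ (b.C true)), hTT, Matrix.mul_one, b.bcCB]
    have e2 : (bc ℂ (b.C false) * X * bc ℂ (b.B false)) * P = P * (bc ℂ (b.C true) * X * bc ℂ (b.B true)) := by
      rw [hP, Matrix.mul_assoc (bc ℂ (b.C false) * X), Matrix.mul_assoc (bc ℂ (b.C false) * JT)]
      rw [show bc ℂ (b.B false) * (bc ℂ (b.C false) * JT * bc ℂ (b.B true)) = JT * bc ℂ (b.B true) from b.JB hTF true]
      rw [b.XB hXF true, ← Matrix.mul_assoc, ← Matrix.mul_assoc, Matrix.mul_assoc (bc ℂ (b.C false)),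
        Matrix.mul_assoc (bc ℂ (b.C false)) JT, h2 u]
    have e3 := congrArg Matrix.det e2
    rw [det_mul, det_mul] at e3
    have e4 : P.det ≠ 0 := by
      have := congrArg Matrix.det e1
      rw [det_mul, det_one] at this
      exact right_ne_zero_of_mul_eq_one this
    have e5 : (bc ℂ (b.C false) * X * bc ℂ (b.B false)).det = (bc ℂ (b.C true) * X * bc ℂ (b.B true)).det := by
      rw [mul_comm] at e3
      exact mul_left_cancel₀ e4 e3
    have e6 : sca hF ρ Φ frob comm b false ℂ u = sca hF ρ Φ frob comm b true ℂ u := Units.ext e5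
    rw [hk, hk] at e6
    have e7 := congrArg (fun u : ℂˣ => ‖(u : ℂ)‖) e6
    simp only [hu, Units.val_zpow_eq_zpow_val, Units.val_mk0, norm_zpow, Complex.norm_ofNat] at e7
    exact (zpow_right_injective₀ (by norm_num : (0 : ℝ) < 2) (by norm_num) e7).symm
  have h6 : ρ.der 1 * F' = ρ.der 1 * b.e true - ρ.der 1 * b.e false := by
    rw [← Matrix.mul_sub]
    congr 1
    exact b.diff.symm
  rw [h6, Matrix.trace_sub, ← htr, ← htr, hkk, sub_self]

/-- **The core.** -/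
theorem core (odd : ρ.map ℚ (-1) = -1) :
    ∃ k : ℤ, (∀ (JT : Matrix (Fin r) (Fin r) ℂ), JT * JT = 1 → JT * bc ℂ F' = -(bc ℂ F' * JT) →
      (∀ u : ℂˣ, (ρ.map ℂ (Matrix.GeneralLinearGroup.scalar (Fin N) u) : Matrix (Fin r) (Fin r) ℂ) * JT =
        JT * (ρ.map ℂ (Matrix.GeneralLinearGroup.scalar (Fin N) u) : Matrix (Fin r) (Fin r) ℂ)) →
      (k : ℚ) * N = (F' * ρ.der F).trace) ∧
    ∀ (J : GL (Fin N) ℂ) (JT : Matrix (Fin r) (Fin r) ℂ), J * J = 1 →
      (J : Matrix (Fin N) (Fin N) ℂ) * bc ℂ F = -(bc ℂ F * (J : Matrix (Fin N) (Fin N) ℂ)) →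
      JT * JT = 1 → JT * bc ℂ F' = -(bc ℂ F' * JT) →
      (ρ.map ℂ J : Matrix (Fin r) (Fin r) ℂ) * JT = JT * (ρ.map ℂ J : Matrix (Fin r) (Fin r) ℂ) →
      ∃ e : ℚ, e ≠ 0 ∧ (bc ℂ (b.C false) * JT * bc ℂ (b.B true)).det =
        (e : ℂ) * ((bc ℂ (a.C false) * (J : Matrix (Fin N) (Fin N) ℂ) * bc ℂ (a.B true)).det) ^ k := by
  obtain ⟨k, hk, hk'⟩ := (chiC hF ρ Φ frob comm a b).det_pow
  refine ⟨k, ?_, ?_⟩
  · intro JT hTT hTF h2
    have h3 := chi_trace hF ρ Φ frob comm a b hk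
    have h4 := trace_scalar hF ρ Φ frob comm b JT hTT hTF h2
    have hN : (N : ℚ) = n + n := by
      have e1 := congrArg Matrix.trace a.sum
      rw [Matrix.trace_add, Matrix.trace_mul_comm, Matrix.trace_mul_comm (a.B false), a.CB, a.CB, Matrix.trace_one,
        Matrix.trace_one, Fintype.card_fin, Fintype.card_fin] at e1
      exact e1.symm
    have hder : ρ.der 1 = ρ.der F + (ρ.der (a.e false) + ρ.der (a.e false)) := by
      rw [← ρ.der_add, ← ρ.der_add]
      congr 1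
      have e1 := a.two_e false
      simp only [Bool.false_eq_true, if_false, neg_smul, one_smul] at e1
      rw [← two_smul ℚ (a.e false), e1]
      abel
    rw [hder, Matrix.add_mul, Matrix.add_mul, Matrix.trace_add, Matrix.trace_add] at h4
    rw [hN, Matrix.trace_mul_comm F']
    linear_combination 2 * h3 - h4
  · intro J JT hJJ hJF hTT hTF hcomm
    have hJJ' : (J : Matrix (Fin N) (Fin N) ℂ) * (J : Matrix (Fin N) (Fin N) ℂ) = 1 := by
      rw [← Units.val_mul, hJJ, Units.val_one]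
    -- the block of `J`
    have g1 : (bc ℂ (a.C true) * (J : Matrix (Fin N) (Fin N) ℂ) * bc ℂ (a.B false)) *
        (bc ℂ (a.C false) * (J : Matrix (Fin N) (Fin N) ℂ) * bc ℂ (a.B true)) = 1 := by
      rw [Matrix.mul_assoc (bc ℂ (a.C true) * _),
        show bc ℂ (a.B false) * (bc ℂ (a.C false) * (J : Matrix (Fin N) (Fin N) ℂ) * bc ℂ (a.B true)) =
          (J : Matrix (Fin N) (Fin N) ℂ) * bc ℂ (a.B true) from a.JB hJF true,
        ← Matrix.mul_assoc, Matrix.mul_assoc (bc ℂ (a.C true)), hJJ', Matrix.mul_one, a.bcCB]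
    have g2 : (bc ℂ (a.C false) * (J : Matrix (Fin N) (Fin N) ℂ) * bc ℂ (a.B true)) *
        (bc ℂ (a.C true) * (J : Matrix (Fin N) (Fin N) ℂ) * bc ℂ (a.B false)) = 1 := by
      rw [Matrix.mul_assoc (bc ℂ (a.C false) * _),
        show bc ℂ (a.B true) * (bc ℂ (a.C true) * (J : Matrix (Fin N) (Fin N) ℂ) * bc ℂ (a.B false)) =
          (J : Matrix (Fin N) (Fin N) ℂ) * bc ℂ (a.B false) from a.JB hJF false,
        ← Matrix.mul_assoc, Matrix.mul_assoc (bc ℂ (a.C false)), hJJ', Matrix.mul_one, a.bcCB]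
    obtain ⟨g, hg, hg'⟩ : ∃ g : GL (Fin n) ℂ, (g : Matrix (Fin n) (Fin n) ℂ) =
        bc ℂ (a.C false) * (J : Matrix (Fin N) (Fin N) ℂ) * bc ℂ (a.B true) ∧
        ((g⁻¹ : GL (Fin n) ℂ) : Matrix (Fin n) (Fin n) ℂ) =
        bc ℂ (a.C true) * (J : Matrix (Fin N) (Fin N) ℂ) * bc ℂ (a.B false) := ⟨⟨_, _, g2, g1⟩, rfl, rfl⟩
    -- `J diag(1, g) = diag(1, g) w`
    have hJw : J * a.emb ℂ g = a.emb ℂ g * bcG ℂ a.w := by
      apply Units.ext
      rw [Units.val_mul, Units.val_mul, a.emb_val, bcG_val]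
      have e1 : bc ℂ (a.w : Matrix (Fin N) (Fin N) ℚ) = bc ℂ (a.B false) * bc ℂ (a.C true) +
          bc ℂ (a.B true) * bc ℂ (a.C false) := by
        show bc ℂ (a.B false * a.C true + a.B true * a.C false) = _
        rw [bc_add, bc_mul, bc_mul]
      rw [e1]
      have j1 : (J : Matrix (Fin N) (Fin N) ℂ) * bc ℂ (a.B true) = bc ℂ (a.B false) * (g : Matrix (Fin n) (Fin n) ℂ) := by
        rw [hg]
        exact (a.JB hJF true).symm
      have j2 : (J : Matrix (Fin N) (Fin N) ℂ) * bc ℂ (a.B false) =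
          bc ℂ (a.B true) * ((g⁻¹ : GL (Fin n) ℂ) : Matrix (Fin n) (Fin n) ℂ) := by
        rw [hg']
        exact (a.JB hJF false).symm
      have h1 := a.bcCB (A := ℂ) true
      have h2 := a.bcCB (A := ℂ) false
      have h3 : bc ℂ (a.C true) * bc ℂ (a.B false) = 0 := a.bcCB' true
      have h4 : bc ℂ (a.C false) * bc ℂ (a.B true) = 0 := a.bcCB' false
      rw [Matrix.mul_add, ← Matrix.mul_assoc, j1, ← Matrix.mul_assoc, ← Matrix.mul_assoc, j2,
        Matrix.mul_assoc (bc ℂ (a.B true)) _ (g : Matrix (Fin n) (Fin n) ℂ), Units.inv_mul, Matrix.mul_one]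
      rw [Matrix.add_mul, Matrix.mul_add, Matrix.mul_add]
      rw [Matrix.mul_assoc (bc ℂ (a.B true)) _ (bc ℂ (a.B false) * _), ← Matrix.mul_assoc (bc ℂ (a.C true)), h3,
        Matrix.zero_mul, Matrix.mul_zero, zero_add]
      rw [Matrix.mul_assoc (bc ℂ (a.B true)) _ (bc ℂ (a.B true) * _), ← Matrix.mul_assoc (bc ℂ (a.C true)), h1,
        Matrix.one_mul]
      rw [Matrix.mul_assoc (bc ℂ (a.B false) * _) _ (bc ℂ (a.B false) * _), ← Matrix.mul_assoc (bc ℂ (a.C false)), h2,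
        Matrix.one_mul]
      rw [Matrix.mul_assoc (bc ℂ (a.B false) * _) _ (bc ℂ (a.B true) * _), ← Matrix.mul_assoc (bc ℂ (a.C false)), h4,
        Matrix.zero_mul, Matrix.mul_zero, add_zero, add_comm]
    have hJe : J = a.emb ℂ g * bcG ℂ a.w * (a.emb ℂ g)⁻¹ := by
      rw [← hJw, mul_inv_cancel_right]
    set X : GL (Fin r) ℂ := ρ.map ℂ (a.emb ℂ g) with hX
    have hXF : (X : Matrix (Fin r) (Fin r) ℂ) * bc ℂ F' = bc ℂ F' * (X : Matrix (Fin r) (Fin r) ℂ) :=
      rho_F hF ρ Φ frob comm ℂ _ (a.emb_F ℂ g)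
    have hXF' : ((X⁻¹ : GL (Fin r) ℂ) : Matrix (Fin r) (Fin r) ℂ) * bc ℂ F' =
        bc ℂ F' * ((X⁻¹ : GL (Fin r) ℂ) : Matrix (Fin r) (Fin r) ℂ) := by
      have := rho_F hF ρ Φ frob comm ℂ _ (a.emb_F ℂ g⁻¹)
      rw [map_inv, map_inv] at this
      exact this
    have hρJ : (ρ.map ℂ J : Matrix (Fin r) (Fin r) ℂ) = (X : Matrix (Fin r) (Fin r) ℂ) *
        bc ℂ (ρ.map ℚ a.w : Matrix (Fin r) (Fin r) ℚ) * ((X⁻¹ : GL (Fin r) ℂ) : Matrix (Fin r) (Fin r) ℂ) := by
      have e1 := congrArg (ρ.map ℂ) hJe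
      rw [map_mul, map_mul, map_inv, rho_bcG] at e1
      rw [e1, Units.val_mul, Units.val_mul, bcG_val]
    -- the rational block
    have hwF : (ρ.map ℚ a.w : Matrix (Fin r) (Fin r) ℚ) * bc ℚ F' =
        -(bc ℚ F' * (ρ.map ℚ a.w : Matrix (Fin r) (Fin r) ℚ)) := by
      refine rho_F_anti hF ρ Φ frob comm odd ℚ a.w ?_
      have e1 : bc ℚ F = F := by
        ext i j
        simp
      rw [e1]
      exact a.w_F
    have hwF' : bc ℂ (ρ.map ℚ a.w : Matrix (Fin r) (Fin r) ℚ) * bc ℂ F' =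
        -(bc ℂ F' * bc ℂ (ρ.map ℚ a.w : Matrix (Fin r) (Fin r) ℚ)) := by
      have e1 : bc ℚ F' = F' := by
        ext i j
        simp
      rw [e1] at hwF
      rw [← bc_mul, hwF, ← bc_mul, bc_neg]
    set U : Matrix (Fin m) (Fin m) ℚ := b.C false * (ρ.map ℚ a.w : Matrix (Fin r) (Fin r) ℚ) * b.B true with hU
    have hUC : bc ℂ U = bc ℂ (b.C false) * bc ℂ (ρ.map ℚ a.w : Matrix (Fin r) (Fin r) ℚ) * bc ℂ (b.B true) := by
      rw [hU, bc_mul, bc_mul]
    have hww : a.w * a.w = 1 := Units.ext a.w.val_inv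
    set V : Matrix (Fin r) (Fin r) ℂ := bc ℂ (ρ.map ℚ a.w : Matrix (Fin r) (Fin r) ℚ) with hV
    have hVV : V * V = 1 := by
      rw [hV, ← bc_mul, ← Units.val_mul, ← map_mul, hww, map_one, Units.val_one, bc_one]
    have hU0 : U.det ≠ 0 := by
      have e1 : (bc ℂ (b.C true) * V * bc ℂ (b.B false)) * bc ℂ U = 1 := by
        rw [hUC, Matrix.mul_assoc (bc ℂ (b.C true) * _),
          show bc ℂ (b.B false) * (bc ℂ (b.C false) * V * bc ℂ (b.B true)) = V * bc ℂ (b.B true) from b.JB hwF' true,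
          ← Matrix.mul_assoc, Matrix.mul_assoc (bc ℂ (b.C true)), hVV, Matrix.mul_one, b.bcCB]
      have e2 := congrArg Matrix.det e1
      rw [det_mul, det_one] at e2
      intro h0
      have e3 : (bc ℂ U).det = algebraMap ℚ ℂ U.det := by
        rw [RingHom.map_det]
        rfl
      rw [e3, h0, map_zero, mul_zero] at e2
      exact zero_ne_one e2
    set R : Matrix (Fin r) (Fin r) ℂ := (ρ.map ℂ J : Matrix (Fin r) (Fin r) ℂ) with hR
    have hRR : R * R = 1 := by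
      rw [hR, ← Units.val_mul, ← map_mul, hJJ, map_one, Units.val_one]
    have hRF : R * bc ℂ F' = -(bc ℂ F' * R) := rho_F_anti hF ρ Φ frob comm odd ℂ J hJF
    -- the block of `ρ(J)`
    have d1 : bc ℂ (b.C false) * R * bc ℂ (b.B true) =
        (bc ℂ (b.C false) * (X : Matrix (Fin r) (Fin r) ℂ) * bc ℂ (b.B false)) * bc ℂ U *
          (bc ℂ (b.C true) * ((X⁻¹ : GL (Fin r) ℂ) : Matrix (Fin r) (Fin r) ℂ) * bc ℂ (b.B true)) := by
      have e1 := b.XB hXF' true
      have e2 : bc ℂ (b.B false) * bc ℂ U = V * bc ℂ (b.B true) := by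
        rw [hUC]
        exact b.JB hwF' true
      rw [Matrix.mul_assoc (bc ℂ (b.C false) * _) _ (bc ℂ U), e2, hρJ]
      rw [Matrix.mul_assoc _ (V * _) _, Matrix.mul_assoc V, e1]
      simp only [Matrix.mul_assoc]
    have d2 : (bc ℂ (b.C false) * R * bc ℂ (b.B true)).det =
        (U.det : ℂ) * ((bc ℂ (a.C false) * (J : Matrix (Fin N) (Fin N) ℂ) * bc ℂ (a.B true)).det) ^ k := by
      have e1 : ((chi hF ρ Φ frob comm a b false ℂ g : ℂˣ) : ℂ) =
          (bc ℂ (b.C false) * (X : Matrix (Fin r) (Fin r) ℂ) * bc ℂ (b.B false)).det := rfl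
      have e2 : (((chi hF ρ Φ frob comm a b true ℂ g)⁻¹ : ℂˣ) : ℂ) =
          (bc ℂ (b.C true) * ((X⁻¹ : GL (Fin r) ℂ) : Matrix (Fin r) (Fin r) ℂ) * bc ℂ (b.B true)).det := by
        rw [← map_inv]
        show (bc ℂ (b.C true) * (ρ.map ℂ (a.emb ℂ g⁻¹) : Matrix (Fin r) (Fin r) ℂ) * bc ℂ (b.B true)).det = _
        rw [map_inv, map_inv]
      have e3 := congrArg (fun u : ℂˣ => (u : ℂ)) (hk' g)
      have e4 : (((chiC hF ρ Φ frob comm a b).F ℂ g : ℂˣ) : ℂ) =
          (bc ℂ (b.C false) * (X : Matrix (Fin r) (Fin r) ℂ) * bc ℂ (b.B false)).det *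
          (bc ℂ (b.C true) * ((X⁻¹ : GL (Fin r) ℂ) : Matrix (Fin r) (Fin r) ℂ) * bc ℂ (b.B true)).det := by
        rw [← e1, ← e2, ← Units.val_mul]
        rfl
      have e5 : (bc ℂ U).det = (U.det : ℂ) := by
        have : (bc ℂ U).det = algebraMap ℚ ℂ U.det := by
          rw [RingHom.map_det]
          rfl
        rw [this]
        rfl
      rw [d1, det_mul, det_mul, e5, ← hg]
      rw [e4, Units.val_zpow_eq_zpow_val] at e3
      have e6 : ((Matrix.GeneralLinearGroup.det g : ℂˣ) : ℂ) = (g : Matrix (Fin n) (Fin n) ℂ).det := rfl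
      rw [e6] at e3
      rw [← e3]
      ring
    -- the sign
    have d3 : (bc ℂ (b.C true) * R * bc ℂ (b.B false)) * (bc ℂ (b.C false) * R * bc ℂ (b.B true)) = 1 := by
      rw [Matrix.mul_assoc (bc ℂ (b.C true) * _),
        show bc ℂ (b.B false) * (bc ℂ (b.C false) * R * bc ℂ (b.B true)) = R * bc ℂ (b.B true) from b.JB hRF true,
        ← Matrix.mul_assoc, Matrix.mul_assoc (bc ℂ (b.C true)), hRR, Matrix.mul_one, b.bcCB]
    set K := bc ℂ (b.C true) * (R * JT) * bc ℂ (b.B true) with hK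
    have d4 : K = (bc ℂ (b.C true) * R * bc ℂ (b.B false)) * (bc ℂ (b.C false) * JT * bc ℂ (b.B true)) := by
      rw [Matrix.mul_assoc (bc ℂ (b.C true) * _),
        show bc ℂ (b.B false) * (bc ℂ (b.C false) * JT * bc ℂ (b.B true)) = JT * bc ℂ (b.B true) from b.JB hTF true]
      simp only [hK, Matrix.mul_assoc]
    have hKF : (R * JT) * bc ℂ F' = bc ℂ F' * (R * JT) := by
      rw [Matrix.mul_assoc, hTF, Matrix.mul_neg, ← Matrix.mul_assoc, hRF, Matrix.neg_mul, neg_neg, Matrix.mul_assoc]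
    have d5 : K * K = 1 := by
      rw [hK, Matrix.mul_assoc (bc ℂ (b.C true) * _), b.XB hKF true, ← Matrix.mul_assoc,
        Matrix.mul_assoc (bc ℂ (b.C true))]
      have : (R * JT) * (R * JT) = 1 := by
        rw [Matrix.mul_assoc, ← Matrix.mul_assoc JT, ← hcomm, Matrix.mul_assoc R, hTT, Matrix.mul_one, hRR]
      rw [this, Matrix.mul_one, b.bcCB]
    have d6 : K.det = 1 ∨ K.det = -1 := by
      have := congrArg Matrix.det d5
      rw [det_mul, det_one] at this
      exact mul_self_eq_one_iff.1 this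
    have d7 := congrArg Matrix.det d4
    rw [det_mul] at d7
    have d8 := congrArg Matrix.det d3
    rw [det_mul, det_one] at d8
    set x := (bc ℂ (b.C true) * R * bc ℂ (b.B false)).det
    set y := (bc ℂ (b.C false) * R * bc ℂ (b.B true)).det
    set z := (bc ℂ (b.C false) * JT * bc ℂ (b.B true)).det
    have d9 : z = K.det * y := by
      rw [d7]
      linear_combination -z * d8
    rcases d6 with h | h
    · refine ⟨U.det, hU0, ?_⟩
      rw [d9, h, one_mul, d2]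
    · refine ⟨-U.det, neg_ne_zero.2 hU0, ?_⟩
      rw [d9, h, d2]
      push_cast
      ring

end

end Pool.Agent.X274.PR
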