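import Pool.Agent.X274.PR.Rep

set_option autoImplicit false

/-!
# The embedding of `GL(M⁻)` into `GL(M)` and the characters of its blocks
-/

namespace Pool.Agent.X274.PR

open Matrix

namespace Adapt

section emb

variable {N n : ℕ} {F : Matrix (Fin N) (Fin N) ℚ} (a : Adapt F n)

theorem emb_mul (A : Type) [CommRing A] [Algebra ℚ A] (g h : Matrix (Fin n) (Fin n) A) :
    (bc A (a.B true) * bc A (a.C true) + bc A (a.B false) * g * bc A (a.C false)) *
      (bc A (a.B true) * bc A (a.C true) + bc A (a.B false) * h * bc A (a.C false)) =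
    bc A (a.B true) * bc A (a.C true) + bc A (a.B false) * (g * h) * bc A (a.C false) := by
  have h1 := a.bcCB (A := A) true
  have h2 := a.bcCB (A := A) false
  have h3 : bc A (a.C true) * bc A (a.B false) = 0 := a.bcCB' true
  have h4 : bc A (a.C false) * bc A (a.B true) = 0 := a.bcCB' false
  rw [Matrix.add_mul, Matrix.mul_add, Matrix.mul_add]
  have e1 : bc A (a.B true) * bc A (a.C true) * (bc A (a.B true) * bc A (a.C true)) =
      bc A (a.B true) * bc A (a.C true) := by
    rw [Matrix.mul_assoc, ← Matrix.mul_assoc (bc A (a.C true)), h1, Matrix.one_mul]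
  have e2 : bc A (a.B true) * bc A (a.C true) * (bc A (a.B false) * h * bc A (a.C false)) = 0 := by
    rw [Matrix.mul_assoc, ← Matrix.mul_assoc (bc A (a.C true)), ← Matrix.mul_assoc (bc A (a.C true)), h3,
      Matrix.zero_mul, Matrix.zero_mul, Matrix.mul_zero]
  have e3 : bc A (a.B false) * g * bc A (a.C false) * (bc A (a.B true) * bc A (a.C true)) = 0 := by
    rw [Matrix.mul_assoc, ← Matrix.mul_assoc (bc A (a.C false)), h4, Matrix.zero_mul, Matrix.mul_zero]
  have e4 : bc A (a.B false) * g * bc A (a.C false) * (bc A (a.B false) * h * bc A (a.C false)) =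
      bc A (a.B false) * (g * h) * bc A (a.C false) := by
    rw [Matrix.mul_assoc, ← Matrix.mul_assoc (bc A (a.C false)), ← Matrix.mul_assoc (bc A (a.C false)), h2,
      Matrix.one_mul]
    simp only [Matrix.mul_assoc]
  rw [e1, e2, e3, e4, add_zero, zero_add]

theorem emb_one (A : Type) [CommRing A] [Algebra ℚ A] :
    bc A (a.B true) * bc A (a.C true) + bc A (a.B false) * (1 : Matrix (Fin n) (Fin n) A) * bc A (a.C false) = 1 := by
  rw [Matrix.mul_one, ← bc_mul, ← bc_mul, ← bc_add, a.sum, bc_one]

/-- `g ↦ diag (1, g)` -/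
def emb (A : Type) [CommRing A] [Algebra ℚ A] : GL (Fin n) A →* GL (Fin N) A where
  toFun g := ⟨bc A (a.B true) * bc A (a.C true) + bc A (a.B false) * (g : Matrix (Fin n) (Fin n) A) * bc A (a.C false),
    bc A (a.B true) * bc A (a.C true) +
      bc A (a.B false) * ((g⁻¹ : GL (Fin n) A) : Matrix (Fin n) (Fin n) A) * bc A (a.C false), by
    rw [a.emb_mul, Units.mul_inv, a.emb_one], by rw [a.emb_mul, Units.inv_mul, a.emb_one]⟩
  map_one' := Units.ext (a.emb_one A)
  map_mul' g h := Units.ext (a.emb_mul A _ _).symm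

theorem emb_val (A : Type) [CommRing A] [Algebra ℚ A] (g : GL (Fin n) A) :
    ((a.emb A g : GL (Fin N) A) : Matrix (Fin N) (Fin N) A) =
      bc A (a.B true) * bc A (a.C true) + bc A (a.B false) * (g : Matrix (Fin n) (Fin n) A) * bc A (a.C false) := rfl

theorem map_bc {A B : Type} [CommRing A] [Algebra ℚ A] [CommRing B] [Algebra ℚ B] (f : A →ₐ[ℚ] B)
    {m n : Type} (X : Matrix m n ℚ) : (bc A X).map f = bc B X := by
  ext i j
  simp

theorem emb_nat {A B : Type} [CommRing A] [Algebra ℚ A] [CommRing B] [Algebra ℚ B] (f : A →ₐ[ℚ] B)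
    (g : GL (Fin n) A) : Matrix.GeneralLinearGroup.map (f : A →+* B) (a.emb A g) =
      a.emb B (Matrix.GeneralLinearGroup.map (f : A →+* B) g) := by
  apply Units.ext
  show ((a.emb A g : GL (Fin N) A) : Matrix (Fin N) (Fin N) A).map f = _
  rw [a.emb_val, a.emb_val, Matrix.map_add _ (map_add f), Matrix.map_mul, Matrix.map_mul, Matrix.map_mul]
  rw [map_bc, map_bc, map_bc, map_bc]
  rfl

theorem bcF (A : Type) [CommRing A] [Algebra ℚ A] :
    bc A F = bc A (a.B true) * bc A (a.C true) - bc A (a.B false) * bc A (a.C false) := by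
  have := congrArg (bc A) a.diff
  rw [← this, bc_sub, bc_mul, bc_mul]

theorem emb_F (A : Type) [CommRing A] [Algebra ℚ A] (g : GL (Fin n) A) :
    ((a.emb A g : GL (Fin N) A) : Matrix (Fin N) (Fin N) A) * bc A F =
      bc A F * ((a.emb A g : GL (Fin N) A) : Matrix (Fin N) (Fin N) A) := by
  have h0 : bc A F = bc A (a.B true) * bc A (a.C true) +
      bc A (a.B false) * (-1 : Matrix (Fin n) (Fin n) A) * bc A (a.C false) := by
    rw [a.bcF A, Matrix.mul_neg, Matrix.mul_one, Matrix.neg_mul, sub_eq_add_neg]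
  rw [h0, a.emb_val, a.emb_mul, a.emb_mul, mul_neg_one, neg_one_mul]

/-- the rational matrix that exchanges the two bases -/
def w : GL (Fin N) ℚ where
  val := a.B false * a.C true + a.B true * a.C false
  inv := a.B false * a.C true + a.B true * a.C false
  val_inv := by
    have h3 : a.C true * a.B false = 0 := a.CB' true
    have h4 : a.C false * a.B true = 0 := a.CB' false
    rw [Matrix.add_mul, Matrix.mul_add, Matrix.mul_add]
    rw [Matrix.mul_assoc, ← Matrix.mul_assoc (a.C true), h3, Matrix.zero_mul, Matrix.mul_zero, zero_add]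
    rw [Matrix.mul_assoc, ← Matrix.mul_assoc (a.C true), a.CB, Matrix.one_mul]
    rw [Matrix.mul_assoc, ← Matrix.mul_assoc (a.C false), a.CB, Matrix.one_mul]
    rw [Matrix.mul_assoc, ← Matrix.mul_assoc (a.C false), h4, Matrix.zero_mul, Matrix.mul_zero, add_zero, add_comm]
    exact a.sum
  inv_val := by
    have h3 : a.C true * a.B false = 0 := a.CB' true
    have h4 : a.C false * a.B true = 0 := a.CB' false
    rw [Matrix.add_mul, Matrix.mul_add, Matrix.mul_add]
    rw [Matrix.mul_assoc, ← Matrix.mul_assoc (a.C true), h3, Matrix.zero_mul, Matrix.mul_zero, zero_add]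
    rw [Matrix.mul_assoc, ← Matrix.mul_assoc (a.C true), a.CB, Matrix.one_mul]
    rw [Matrix.mul_assoc, ← Matrix.mul_assoc (a.C false), a.CB, Matrix.one_mul]
    rw [Matrix.mul_assoc, ← Matrix.mul_assoc (a.C false), h4, Matrix.zero_mul, Matrix.mul_zero, add_zero, add_comm]
    exact a.sum

theorem w_F : (a.w : Matrix (Fin N) (Fin N) ℚ) * F = -(F * (a.w : Matrix (Fin N) (Fin N) ℚ)) := by
  have h3 : a.C true * a.B false = 0 := a.CB' true
  have h4 : a.C false * a.B true = 0 := a.CB' false
  have key : ∀ (X : Matrix (Fin N) (Fin N) ℚ), X = a.B true * a.C true - a.B false * a.C false →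
      (a.B false * a.C true + a.B true * a.C false) * X = -(X * (a.B false * a.C true + a.B true * a.C false)) := by
    rintro X rfl
    rw [Matrix.add_mul, Matrix.mul_sub, Matrix.mul_sub, Matrix.sub_mul, Matrix.mul_add, Matrix.mul_add]
    rw [Matrix.mul_assoc (a.B false) _ (a.B true * _), ← Matrix.mul_assoc (a.C true) (a.B true), a.CB, Matrix.one_mul]
    rw [Matrix.mul_assoc (a.B false) _ (a.B false * _), ← Matrix.mul_assoc (a.C true) (a.B false), h3, Matrix.zero_mul,
      Matrix.mul_zero]
    rw [Matrix.mul_assoc (a.B true) _ (a.B true * _), ← Matrix.mul_assoc (a.C false) (a.B true), h4, Matrix.zero_mul,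
      Matrix.mul_zero]
    rw [Matrix.mul_assoc (a.B true) _ (a.B false * _), ← Matrix.mul_assoc (a.C false) (a.B false), a.CB, Matrix.one_mul]
    rw [Matrix.mul_assoc (a.B true) _ (a.B false * _), ← Matrix.mul_assoc (a.C true) (a.B false), h3, Matrix.zero_mul,
      Matrix.mul_zero]
    rw [Matrix.mul_assoc (a.B true) _ (a.B true * _), ← Matrix.mul_assoc (a.C true) (a.B true), a.CB, Matrix.one_mul]
    rw [Matrix.mul_assoc (a.B false) _ (a.B false * _), ← Matrix.mul_assoc (a.C false) (a.B false), a.CB, Matrix.one_mul]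
    rw [Matrix.mul_assoc (a.B false) _ (a.B true * _), ← Matrix.mul_assoc (a.C false) (a.B true), h4, Matrix.zero_mul,
      Matrix.mul_zero]
    abel
  exact key F a.diff.symm

/-- `diag (1, u) = 1 + (u - 1) e₋` for scalars -/
theorem emb_tangent : a.emb (DualNumber ℚ) (dg n _ fun _ => unitEps) = tangent (a.e false) := by
  apply Units.ext
  rw [a.emb_val, dg_val]
  show _ = 1 + (DualNumber.eps : DualNumber ℚ) • bc (DualNumber ℚ) (a.e false)
  have h1 : (diagonal fun _ : Fin n => ((unitEps : (DualNumber ℚ)ˣ) : DualNumber ℚ)) =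
      (1 : Matrix (Fin n) (Fin n) (DualNumber ℚ)) + (DualNumber.eps : DualNumber ℚ) • 1 := by
    ext i j
    · by_cases h : i = j
      · subst h
        simp [unitEps]
      · simp [h]
    · by_cases h : i = j
      · subst h
        simp [unitEps]
      · simp [h]
  rw [h1, Matrix.mul_add, Matrix.add_mul, ← add_assoc, a.emb_one, Matrix.mul_smul, Matrix.mul_one, Matrix.smul_mul, ← bc_mul]

end emb

end Adapt

end Pool.Agent.X274.PR
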