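import Pool.Agent.X274.PR.Hodge

set_option autoImplicit false

/-!
# The periods of the representations of a motive
-/

namespace Pool.Agent.X274.PR

open Matrix Pool.Agent.X33.DP Pool.Agent.X33.DP.PMot

/-- `x ∼ y`: `x = e y` for a rational number `e ≠ 0` -/
def Sim (x y : ℂ) : Prop := ∃ e : ℚ, e ≠ 0 ∧ x = (e : ℂ) * y

theorem Sim.refl (x : ℂ) : Sim x x := ⟨1, one_ne_zero, by simp⟩

theorem Sim.symm {x y : ℂ} : Sim x y → Sim y x := by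
  rintro ⟨e, he, rfl⟩
  refine ⟨e⁻¹, inv_ne_zero he, ?_⟩
  have : (e : ℂ) ≠ 0 := by exact_mod_cast he
  push_cast
  field_simp

theorem Sim.trans {x y z : ℂ} : Sim x y → Sim y z → Sim x z := by
  rintro ⟨e, he, rfl⟩ ⟨f, hf, rfl⟩
  exact ⟨e * f, mul_ne_zero he hf, by push_cast; ring⟩

theorem Sim.mul {x y x' y' : ℂ} : Sim x y → Sim x' y' → Sim (x * x') (y * y') := by
  rintro ⟨e, he, rfl⟩ ⟨f, hf, rfl⟩
  exact ⟨e * f, mul_ne_zero he hf, by push_cast; ring⟩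

theorem Sim.inv {x y : ℂ} : Sim x y → Sim x⁻¹ y⁻¹ := by
  rintro ⟨e, he, rfl⟩
  exact ⟨e⁻¹, inv_ne_zero he, by push_cast; rw [mul_inv]⟩

theorem Sim.div {x y x' y' : ℂ} (h : Sim x y) (h' : Sim x' y') : Sim (x / x') (y / y') := by
  rw [div_eq_mul_inv, div_eq_mul_inv]
  exact h.mul h'.inv

theorem Sim.zpow {x y : ℂ} (k : ℤ) : Sim x y → Sim (x ^ k) (y ^ k) := by
  rintro ⟨e, he, rfl⟩
  exact ⟨e ^ k, zpow_ne_zero _ he, by push_cast; rw [mul_zpow]⟩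

/-- `T` is obtained from `M` by the representation `ρ` of `GL(M_B)` and the twist `Φ` -/
structure IsConstruction (M T : PMot ℚ ℂ) (ρ : AlgRep M.N T.N) (Φ : GL (Fin T.N) ℚ) : Prop where
  /-- `F_∞` of `T` is `ρ(F_∞) Φ` -/
  frob : T.F = (ρ.map ℚ (invol M.F M.F_sq) : Matrix (Fin T.N) (Fin T.N) ℚ) * (Φ : Matrix (Fin T.N) (Fin T.N) ℚ)
  /-- `Φ` commutes with the representation -/
  comm : ∀ (A : Type) [CommRing A] [Algebra ℚ A] (g : GL (Fin M.N) A), ρ.map A g * bcG A Φ = bcG A Φ * ρ.map A g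
  /-- if `g` preserves the Hodge decomposition of `M`, then `ρ(g)` preserves that of `T` -/
  hodge : ∀ g : GL (Fin M.N) ℂ, (∀ p, ∀ x ∈ M.H p, (g : Matrix (Fin M.N) (Fin M.N) ℂ).mulVec x ∈ M.H p) →
    ∀ p, ∀ y ∈ T.H p, (ρ.map ℂ g : Matrix (Fin T.N) (Fin T.N) ℂ).mulVec y ∈ T.H p
  /-- `ρ` is odd -/
  odd : ρ.map ℚ (-1) = -1

theorem main {M T : PMot ℚ ℂ} {ρ : AlgRep M.N T.N} {Φ : GL (Fin T.N) ℚ} (h : IsConstruction M T ρ Φ)
    (hM : M.NoMiddle) (hT : T.NoMiddle) :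
    ∃ k : ℤ, (k : ℚ) * M.N = (T.F * ρ.der M.F).trace ∧
      ∀ (s : ℤˣ) (c c' t t' : ℂ), M.IsPeriod s c → M.IsPeriod (-s) c' → T.IsPeriod s t → T.IsPeriod (-s) t' →
        Sim (t / t') ((c / c') ^ k) := by
  obtain ⟨c0, hc0⟩ := M.exists_isPeriod hM 1
  obtain ⟨c1, hc1⟩ := M.exists_isPeriod hM (-1)
  obtain ⟨t0, ht0⟩ := T.exists_isPeriod hT 1
  obtain ⟨t1, ht1⟩ := T.exists_isPeriod hT (-1)
  have nc0 : c0 ≠ 0 := (isUnit_isPeriod hM hc0).ne_zero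
  have nc1 : c1 ≠ 0 := (isUnit_isPeriod hM hc1).ne_zero
  have nt0 : t0 ≠ 0 := (isUnit_isPeriod hT ht0).ne_zero
  have nt1 : t1 ≠ 0 := (isUnit_isPeriod hT ht1).ne_zero
  obtain ⟨n, a, ha⟩ := ratio M hc0 hc1
  obtain ⟨m, b, hb⟩ := ratio T ht0 ht1
  obtain ⟨J, hJ1, hJ2, hJ3, hJ4⟩ := exists_sign M hM
  obtain ⟨K, hK1, hK2, hK3, hK4⟩ := exists_sign T hT
  have hKK : (K : Matrix (Fin T.N) (Fin T.N) ℂ) * (K : Matrix (Fin T.N) (Fin T.N) ℂ) = 1 := by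
    rw [← Units.val_mul, hK2, Units.val_one]
  obtain ⟨k, hk1, hk2⟩ := core M.F_sq ρ Φ h.frob h.comm a b h.odd
  -- a matrix that preserves the Hodge decomposition commutes with the sign operator
  have hcomm : ∀ X : Matrix (Fin T.N) (Fin T.N) ℂ, (∀ p, ∀ y ∈ T.H p, X.mulVec y ∈ T.H p) →
      X * (K : Matrix (Fin T.N) (Fin T.N) ℂ) = (K : Matrix (Fin T.N) (Fin T.N) ℂ) * X := by
    intro X hX
    refine ext_hodge T fun p x hx => ?_
    rw [← Matrix.mulVec_mulVec, ← Matrix.mulVec_mulVec, hK1 p x hx, hK1 p _ (hX p x hx), Matrix.mulVec_smul]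
  obtain ⟨e1, he1, h1⟩ := ha J hJ3 hJ4
  obtain ⟨e2, he2, h2⟩ := hb K hK3 hK4
  obtain ⟨e3, he3, h3⟩ := hk2 J K hJ2 hJ3 hKK hK3 (hcomm _ (h.hodge J fun p x hx => by
    rw [hJ1 p x hx]
    exact Submodule.smul_mem _ _ hx))
  have hbase : Sim (t0 / t1) ((c0 / c1) ^ k) := by
    set x := (bc ℂ (a.C false) * (J : Matrix (Fin M.N) (Fin M.N) ℂ) * bc ℂ (a.B true)).det with hx
    have s1 : Sim (c0 / c1) x := ⟨e1, he1, by rw [h1]; field_simp⟩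
    have s2 : Sim (t0 / t1) ((bc ℂ (b.C false) * (K : Matrix (Fin T.N) (Fin T.N) ℂ) * bc ℂ (b.B true)).det) :=
      ⟨e2, he2, by rw [h2]; field_simp⟩
    exact (s2.trans ⟨e3, he3, h3⟩).trans (s1.zpow k).symm
  have huM : ∀ {s : ℤˣ} {x y : ℂ}, M.IsPeriod s x → M.IsPeriod s y → Sim x y := by
    intro s x y hx hy
    obtain ⟨e, he, hxy⟩ := Mot.period_unique _ (toMot_isPeriod hx) (toMot_isPeriod hy)
    exact ⟨e, he, hxy⟩
  have huT : ∀ {s : ℤˣ} {x y : ℂ}, T.IsPeriod s x → T.IsPeriod s y → Sim x y := by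
    intro s x y hx hy
    obtain ⟨e, he, hxy⟩ := Mot.period_unique _ (toMot_isPeriod hx) (toMot_isPeriod hy)
    exact ⟨e, he, hxy⟩
  refine ⟨k, hk1 K hKK hK3 fun u => hcomm _ (h.hodge _ fun p x hx => ?_), ?_⟩
  · rw [Matrix.GeneralLinearGroup.coe_scalar]
    have : (Matrix.scalar (Fin M.N) (u : ℂ)).mulVec x = (u : ℂ) • x := by
      rw [Matrix.scalar_apply, ← Matrix.smul_one_eq_diagonal, Matrix.smul_mulVec, Matrix.one_mulVec]
    rw [this]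
    exact Submodule.smul_mem _ _ hx
  · intro s c c' t t' hc hc' ht ht'
    rcases Int.units_eq_one_or s with rfl | rfl
    · exact ((huT ht ht0).div (huT ht' ht1)).trans (hbase.trans (((huM hc hc0).div (huM hc' hc1)).zpow k).symm)
    · rw [neg_neg] at hc' ht'
      have e4 : Sim (t1 / t0) ((c1 / c0) ^ k) := by
        have := hbase.inv
        rwa [inv_div, ← _root_.inv_zpow, inv_div] at this
      exact ((huT ht ht1).div (huT ht' ht0)).trans (e4.trans (((huM hc hc1).div (huM hc' hc0)).zpow k).symm)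

/-- `(2πi)^k` -/
noncomputable def tpi (k : ℤ) : ℂ := (2 * (Real.pi : ℂ) * Complex.I) ^ k

theorem tpi_ne (k : ℤ) : tpi k ≠ 0 :=
  zpow_ne_zero _ (mul_ne_zero (mul_ne_zero two_ne_zero (by exact_mod_cast Real.pi_ne_zero)) Complex.I_ne_zero)

theorem tpi_add (k l : ℤ) : tpi (k + l) = tpi k * tpi l :=
  zpow_add₀ (mul_ne_zero (mul_ne_zero two_ne_zero (by exact_mod_cast Real.pi_ne_zero)) Complex.I_ne_zero) k l

/-- Deligne's formula for the value `y` at the integer `m`: `y ∈ ℚ (2πi)^(m d) c^±(T)`, `± = (-1)^m`,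
`d = dim T^±` -/
def DeligneFormula (T : PMot ℚ ℂ) (m : ℤ) (y : ℂ) : Prop :=
  ∀ t, T.IsPeriod ((-1) ^ m) t → ∃ e : ℚ, y = (e : ℂ) * (tpi (m * T.dim ((-1) ^ m)) * t)

theorem transfer {M T : PMot ℚ ℂ} (hT : T.NoMiddle) {k : ℤ}
    (hk : ∀ (s : ℤˣ) (c c' t t' : ℂ), M.IsPeriod s c → M.IsPeriod (-s) c' → T.IsPeriod s t → T.IsPeriod (-s) t' →
        Sim (t / t') ((c / c') ^ k)) (m m' : ℤ) (hm : ((-1 : ℤˣ) ^ m') = -(-1) ^ m) {c c' y y' : ℂ}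
    (hc : M.IsPeriod ((-1) ^ m) c) (hc' : M.IsPeriod (-(-1) ^ m) c') (hy : y' ≠ 0) (hf : DeligneFormula T m' y') :
    DeligneFormula T m y ↔ ∃ e : ℚ, y = (e : ℂ) * (tpi ((m - m') * T.dim 1) * y' * (c / c') ^ k) := by
  obtain ⟨t, ht⟩ := T.exists_isPeriod hT ((-1) ^ m)
  obtain ⟨t', ht'⟩ := T.exists_isPeriod hT (-(-1) ^ m)
  have nt : t ≠ 0 := (isUnit_isPeriod hT ht).ne_zero
  have nt' : t' ≠ 0 := (isUnit_isPeriod hT ht').ne_zero
  obtain ⟨e0, he0, h0⟩ := hk _ c c' t t' hc hc' ht ht'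
  obtain ⟨e1, h1⟩ := hf t' (by rw [hm]; exact ht')
  rw [dim_eq hT _ 1] at h1
  have he1 : e1 ≠ 0 := by
    rintro rfl
    apply hy
    rw [h1]
    push_cast
    ring
  have e0' : (e0 : ℂ) ≠ 0 := by exact_mod_cast he0
  have e1' : (e1 : ℂ) ≠ 0 := by exact_mod_cast he1
  have h2 : tpi (m * T.dim 1) * t = ((e0 / e1 : ℚ) : ℂ) * (tpi ((m - m') * T.dim 1) * y' * (c / c') ^ k) := by
    have h3 : t = (e0 : ℂ) * (c / c') ^ k * t' := by
      rw [← h0]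
      field_simp
    have h4 : tpi (m * T.dim 1) = tpi ((m - m') * T.dim 1) * tpi (m' * T.dim 1) := by
      rw [← tpi_add]
      congr 1
      ring
    rw [h4, h3, h1]
    push_cast
    field_simp
  constructor
  · intro hF
    obtain ⟨e, he⟩ := hF t ht
    rw [dim_eq hT _ 1, h2] at he
    exact ⟨e * (e0 / e1), by rw [he]; push_cast; ring⟩
  · rintro ⟨e, he⟩ t2 ht2
    obtain ⟨f, hf0, h5⟩ := Mot.period_unique _ (toMot_isPeriod ht) (toMot_isPeriod ht2)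
    have h6 : t = (f : ℂ) * t2 := h5
    have f0' : (f : ℂ) ≠ 0 := by exact_mod_cast hf0
    refine ⟨e * (e1 / e0) * f, ?_⟩
    rw [dim_eq hT _ 1]
    have h7 : tpi ((m - m') * T.dim 1) * y' * (c / c') ^ k = ((e1 / e0 : ℚ) : ℂ) * (tpi (m * T.dim 1) * t) := by
      rw [h2]
      push_cast
      field_simp
    rw [he, h7, h6]
    push_cast
    ring

end Pool.Agent.X274.PR
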