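import Pool.Agent.X274.PR.Core
import Pool.Agent.X33.DP.CMain

set_option autoImplicit false

/-!
# The sign operator and the periods
-/

namespace Pool.Agent.X274.PR

open Matrix Pool.Agent.X33.DP Pool.Agent.X33.DP.PMot

variable (M : PMot ℚ ℂ)

/-- a matrix is determined by its values on the Hodge components -/
theorem ext_hodge {l : Type} {X Y : Matrix l (Fin M.N) ℂ} (h : ∀ p, ∀ x ∈ M.H p, X.mulVec x = Y.mulVec x) : X = Y := by
  obtain ⟨v, t, hv⟩ := M.hodge
  have h1 : X.mulVecLin = Y.mulVecLin := v.ext fun j => h (t j) _ (by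
    rw [hv]
    exact Submodule.subset_span ⟨j, rfl, rfl⟩)
  ext i j
  have h2 := congrFun (LinearMap.congr_fun h1 (Pi.single j 1)) i
  simpa using h2

/-- the operator `J = sign (p - q)` -/
theorem exists_sign (h0 : M.NoMiddle) : ∃ J : GL (Fin M.N) ℂ,
    (∀ p, ∀ x ∈ M.H p, (J : Matrix (Fin M.N) (Fin M.N) ℂ).mulVec x = (((2 * p - M.w).sign : ℤ) : ℂ) • x) ∧ J * J = 1 ∧
    (J : Matrix (Fin M.N) (Fin M.N) ℂ) * bc ℂ M.F = -(bc ℂ M.F * (J : Matrix (Fin M.N) (Fin M.N) ℂ)) ∧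
    ∀ (n : ℕ) (Q : Matrix (Fin n) (Fin M.N) ℚ), LinearMap.ker Q.mulVecLin = M.fil ((M.w + 1) / 2) →
      bc ℂ Q * M.P * (J : Matrix (Fin M.N) (Fin M.N) ℂ) = -(bc ℂ Q * M.P) := by
  obtain ⟨v, t, hv⟩ := M.hodge
  let f : (Fin M.N → ℂ) →ₗ[ℂ] (Fin M.N → ℂ) := v.constr ℂ fun j => (((2 * t j - M.w).sign : ℤ) : ℂ) • v j
  have hf : ∀ p, ∀ x ∈ M.H p, (LinearMap.toMatrix' f).mulVec x = (((2 * p - M.w).sign : ℤ) : ℂ) • x := by
    intro p x hx
    have e1 : (LinearMap.toMatrix' f).mulVec x = f x := by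
      rw [← Matrix.toLin'_apply, Matrix.toLin'_toMatrix']
    rw [e1]
    rw [hv p] at hx
    induction hx using Submodule.span_induction with
    | mem x hx =>
      obtain ⟨j, hj, rfl⟩ := hx
      rw [show f (v j) = _ from v.constr_basis ℂ _ j, show t j = p from hj]
    | zero => rw [map_zero, smul_zero]
    | add x y _ _ hx hy => rw [map_add, hx (by rw [← Matrix.toLin'_apply, Matrix.toLin'_toMatrix']),
        hy (by rw [← Matrix.toLin'_apply, Matrix.toLin'_toMatrix']), smul_add]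
    | smul c x _ hx => rw [map_smul, hx (by rw [← Matrix.toLin'_apply, Matrix.toLin'_toMatrix']), smul_comm]
  have hne : ∀ p, ∀ x ∈ M.H p, x ≠ 0 → 2 * p ≠ M.w := by
    intro p x hx hx0 hp
    rw [h0 p hp, Submodule.mem_bot] at hx
    exact hx0 hx
  have hJJ : LinearMap.toMatrix' f * LinearMap.toMatrix' f = 1 := by
    refine ext_hodge M fun p x hx => ?_
    rw [← Matrix.mulVec_mulVec, hf p x hx, Matrix.mulVec_smul, hf p x hx, smul_smul, Matrix.one_mulVec]
    by_cases hx0 : x = 0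
    · rw [hx0, smul_zero]
    · have h1 := hne p x hx hx0
      have h2 : (2 * p - M.w).sign * (2 * p - M.w).sign = 1 := by
        rcases lt_or_gt_of_ne h1 with h | h
        · rw [Int.sign_eq_neg_one_of_neg (by omega)]
          norm_num
        · rw [Int.sign_eq_one_of_pos (by omega)]
          norm_num
      rw [← Int.cast_mul, h2, Int.cast_one, one_smul]
  refine ⟨⟨LinearMap.toMatrix' f, LinearMap.toMatrix' f, hJJ, hJJ⟩, hf, Units.ext hJJ, ?_, ?_⟩
  · show LinearMap.toMatrix' f * bc ℂ M.F = -(bc ℂ M.F * LinearMap.toMatrix' f)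
    refine ext_hodge M fun p x hx => ?_
    rw [← Matrix.mulVec_mulVec, hf _ _ (M.swap p x hx), Matrix.neg_mulVec, ← Matrix.mulVec_mulVec, hf p x hx,
      Matrix.mulVec_smul, ← neg_smul]
    congr 1
    rw [← Int.cast_neg, ← Int.sign_neg]
    congr 2
    ring
  · intro n Q hQ
    show bc ℂ Q * M.P * LinearMap.toMatrix' f = -(bc ℂ Q * M.P)
    refine ext_hodge M fun p x hx => ?_
    rw [← Matrix.mulVec_mulVec, hf p x hx, Matrix.mulVec_smul, Matrix.neg_mulVec]
    by_cases hx0 : x = 0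
    · rw [hx0, Matrix.mulVec_zero, smul_zero, neg_zero]
    have h1 := hne p x hx hx0
    by_cases hp : M.w < 2 * p
    · have h2 : (bc ℂ Q * M.P).mulVec x = 0 := by
        have h3 : M.P.mulVec x ∈ Submodule.span ℂ ((fun x j => algebraMap ℚ ℂ (x j)) ''
            (M.fil ((M.w + 1) / 2) : Set (Fin M.N → ℚ))) := by
          rw [← M.comp]
          exact ⟨x, Submodule.mem_iSup_of_mem p (Submodule.mem_iSup_of_mem (by omega) hx), rfl⟩
        rw [← Matrix.mulVec_mulVec]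
        have h4 : Submodule.span ℂ ((fun x j => algebraMap ℚ ℂ (x j)) ''
            (M.fil ((M.w + 1) / 2) : Set (Fin M.N → ℚ))) ≤ LinearMap.ker (bc ℂ Q).mulVecLin := by
          rw [Submodule.span_le]
          rintro _ ⟨y, hy, rfl⟩
          have h5 : Q.mulVec y = 0 := by
            rw [← hQ] at hy
            exact hy
          show (bc ℂ Q).mulVec (fun j => algebraMap ℚ ℂ (y j)) = 0
          ext i
          have h6 := congrArg (algebraMap ℚ ℂ) (congrFun h5 i)
          simp only [Matrix.mulVec, dotProduct, map_sum, map_mul, Pi.zero_apply, map_zero] at h6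
          simpa [Matrix.mulVec, dotProduct] using h6
        exact h4 h3
      rw [h2, smul_zero, neg_zero]
    · rw [Int.sign_eq_neg_one_of_neg (by omega), Int.cast_neg, Int.cast_one, neg_one_smul]

theorem inj_cancel {N n l : ℕ} {B : Matrix (Fin N) (Fin n) ℚ} (hB : Function.Injective B.mulVec)
    {X Y : Matrix (Fin n) (Fin l) ℚ} (h : B * X = B * Y) : X = Y := by
  ext i j
  have h1 : B.mulVec (X.mulVec (Pi.single j 1)) = B.mulVec (Y.mulVec (Pi.single j 1)) := by
    rw [Matrix.mulVec_mulVec, Matrix.mulVec_mulVec, h]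
  have h2 := congrFun (hB h1) i
  simpa using h2

theorem exists_coords {N n l : ℕ} {B : Matrix (Fin N) (Fin n) ℚ} {X : Matrix (Fin N) (Fin l) ℚ}
    (h : ∀ x, X.mulVec x ∈ LinearMap.range B.mulVecLin) : ∃ C : Matrix (Fin n) (Fin l) ℚ, B * C = X := by
  choose c hc using fun j => h (Pi.single j 1)
  refine ⟨Matrix.of fun i j => c j i, ?_⟩
  ext i j
  have h1 := congrFun (hc j) i
  have h2 : X.mulVec (Pi.single j 1) i = X i j := by simp
  rw [← h2, ← h1]
  rfl

theorem exists_right_inv {N n : ℕ} {Q : Matrix (Fin n) (Fin N) ℚ} (h : Function.Surjective Q.mulVec) :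
    ∃ R : Matrix (Fin N) (Fin n) ℚ, Q * R = 1 := by
  refine exists_coords (B := Q) (X := (1 : Matrix (Fin n) (Fin n) ℚ)) fun x => ?_
  obtain ⟨y, hy⟩ := h x
  exact ⟨y, by rw [Matrix.mulVecLin_apply, hy, Matrix.one_mulVec]⟩

theorem quot_eq {N n : ℕ} {Q Q1 : Matrix (Fin n) (Fin N) ℚ} {R : Matrix (Fin N) (Fin n) ℚ} (hR : Q * R = 1)
    (h : LinearMap.ker Q.mulVecLin ≤ LinearMap.ker Q1.mulVecLin) : Q1 = Q1 * R * Q := by
  ext i j
  have h1 : (Pi.single j 1 - R.mulVec (Q.mulVec (Pi.single j 1)) : Fin N → ℚ) ∈ LinearMap.ker Q.mulVecLin := by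
    rw [LinearMap.mem_ker, Matrix.mulVecLin_apply, Matrix.mulVec_sub, Matrix.mulVec_mulVec, Matrix.mulVec_mulVec,
      hR, Matrix.one_mul, sub_self]
  have h2 := h h1
  rw [LinearMap.mem_ker, Matrix.mulVecLin_apply, Matrix.mulVec_sub, sub_eq_zero, Matrix.mulVec_mulVec,
    Matrix.mulVec_mulVec] at h2
  have h3 := congrFun h2 i
  simpa using h3

/-- bases adapted to two periods -/
theorem exists_adapt {c c' : ℂ} (hc : M.IsPeriod 1 c) (hc' : M.IsPeriod (-1) c') :
    ∃ (n : ℕ) (a : Adapt M.F n) (Q : Matrix (Fin n) (Fin M.N) ℚ) (e : ℚ),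
      LinearMap.ker Q.mulVecLin = M.fil ((M.w + 1) / 2) ∧ e ≠ 0 ∧
      c = (bc ℂ Q * M.P * bc ℂ (a.B true)).det ∧ c' = (e : ℂ) * (bc ℂ Q * M.P * bc ℂ (a.B false)).det := by
  obtain ⟨n, B, Q, hB, hB', hQ, hQ', rfl⟩ := hc
  obtain ⟨n', B1, Q1, hB1, hB1', hQ1, hQ1', rfl⟩ := hc'
  have hn : n' = n := by
    have e1 := LinearMap.finrank_range_add_finrank_ker Q.mulVecLin
    have e2 := LinearMap.finrank_range_add_finrank_ker Q1.mulVecLin
    rw [LinearMap.range_eq_top.2 hQ, hQ', finrank_top] at e1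
    rw [LinearMap.range_eq_top.2 hQ1, hQ1', finrank_top] at e2
    simp only [Module.finrank_fintype_fun_eq_card, Fintype.card_fin] at e1 e2
    omega
  subst hn
  have hF : ∀ x ∈ M.eig 1, M.F.mulVec x = x := fun x hx => by
    have := (M.mem_eig 1 x).1 hx
    simpa using this
  have hF1 : ∀ x ∈ M.eig (-1), M.F.mulVec x = -x := fun x hx => by
    have := (M.mem_eig (-1) x).1 hx
    simpa using this
  have hFB : M.F * B = B := by
    ext i j
    have h1 := congrFun (hF (B.mulVec (Pi.single j 1)) (by rw [← hB']; exact ⟨_, rfl⟩)) i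
    rw [Matrix.mulVec_mulVec] at h1
    simpa using h1
  have hFB1 : M.F * B1 = -B1 := by
    ext i j
    have h1 := congrFun (hF1 (B1.mulVec (Pi.single j 1)) (by rw [← hB1']; exact ⟨_, rfl⟩)) i
    rw [Matrix.mulVec_mulVec] at h1
    simpa using h1
  obtain ⟨C, hC⟩ := exists_coords (B := B) (X := (1 / 2 : ℚ) • (1 + M.F)) fun x => by
    rw [hB', M.mem_eig, Matrix.mulVec_mulVec, Matrix.mul_smul, Matrix.mul_add, Matrix.mul_one, M.F_sq,
      Units.val_one, one_smul, add_comm]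
  obtain ⟨C1, hC1⟩ := exists_coords (B := B1) (X := (1 / 2 : ℚ) • (1 - M.F)) fun x => by
    rw [hB1', M.mem_eig, Matrix.mulVec_mulVec, Matrix.mul_smul, Matrix.mul_sub, Matrix.mul_one, M.F_sq,
      Units.val_neg, Units.val_one, neg_one_smul, ← Matrix.neg_mulVec, ← smul_neg, neg_sub]
  have hCB : C * B = 1 := inj_cancel hB (by
    rw [← Matrix.mul_assoc, hC, Matrix.smul_mul, Matrix.add_mul, Matrix.one_mul, hFB, Matrix.mul_one, ← two_smul ℚ B,
      smul_smul]
    norm_num)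
  have hC1B1 : C1 * B1 = 1 := inj_cancel hB1 (by
    rw [← Matrix.mul_assoc, hC1, Matrix.smul_mul, Matrix.sub_mul, Matrix.one_mul, hFB1, Matrix.mul_one, sub_neg_eq_add,
      ← two_smul ℚ B1, smul_smul]
    norm_num)
  have hCB1 : C * B1 = 0 := inj_cancel hB (by
    rw [← Matrix.mul_assoc, hC, Matrix.smul_mul, Matrix.add_mul, Matrix.one_mul, hFB1, Matrix.mul_zero, add_neg_cancel,
      smul_zero])
  have hC1B : C1 * B = 0 := inj_cancel hB1 (by
    rw [← Matrix.mul_assoc, hC1, Matrix.smul_mul, Matrix.sub_mul, Matrix.one_mul, hFB, Matrix.mul_zero, sub_self,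
      smul_zero])
  let a : Adapt M.F n' :=
    { B := fun b => if b then B else B1
      C := fun b => if b then C else C1
      CB := by
        rintro (_ | _)
        · exact hC1B1
        · exact hCB
      CB' := by
        rintro (_ | _)
        · exact hC1B
        · exact hCB1
      sum := by
        show B * C + B1 * C1 = 1
        rw [hC, hC1, ← smul_add, show (1 + M.F + (1 - M.F)) = (2 : ℚ) • (1 : Matrix (Fin M.N) (Fin M.N) ℚ) by
          rw [two_smul]; abel, smul_smul]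
        norm_num
      diff := by
        show B * C - B1 * C1 = M.F
        rw [hC, hC1, ← smul_sub, show (1 + M.F - (1 - M.F)) = (2 : ℚ) • M.F by
          rw [two_smul]; abel, smul_smul]
        norm_num }
  obtain ⟨R, hR⟩ := exists_right_inv hQ
  obtain ⟨R1, hR1⟩ := exists_right_inv hQ1
  have hk : LinearMap.ker Q.mulVecLin = LinearMap.ker Q1.mulVecLin := by rw [hQ', hQ1']
  have e1 := quot_eq hR hk.le
  have e2 := quot_eq hR1 hk.ge
  refine ⟨n', a, Q, (Q1 * R).det, hQ', ?_, rfl, ?_⟩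
  · have e3 : (Q1 * R) * (Q * R1) = 1 := by
      have e4 : (Q1 * R) * (Q * R1) = (Q1 * R * Q) * R1 := by simp only [Matrix.mul_assoc]
      rw [e4, ← e1, hR1]
    have e5 := congrArg Matrix.det e3
    rw [det_mul, det_one] at e5
    exact left_ne_zero_of_mul_eq_one e5
  · show (bc ℂ Q1 * M.P * bc ℂ B1).det = (((Q1 * R).det : ℚ) : ℂ) * (bc ℂ Q * M.P * bc ℂ B1).det
    have e3 : bc ℂ Q1 = bc ℂ (Q1 * R) * bc ℂ Q := by
      rw [← bc_mul, ← e1]
    have e4 : (bc ℂ (Q1 * R)).det = (((Q1 * R).det : ℚ) : ℂ) := by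
      have : (bc ℂ (Q1 * R)).det = algebraMap ℚ ℂ (Q1 * R).det := by
        rw [RingHom.map_det]
        rfl
      rw [this]
      rfl
    rw [← e4, ← det_mul, e3]
    simp only [Matrix.mul_assoc]

/-- the ratio of the periods -/
theorem ratio {c c' : ℂ} (hc : M.IsPeriod 1 c) (hc' : M.IsPeriod (-1) c') :
    ∃ (n : ℕ) (a : Adapt M.F n), ∀ J : Matrix (Fin M.N) (Fin M.N) ℂ,
      J * bc ℂ M.F = -(bc ℂ M.F * J) →
      (∀ (n : ℕ) (Q : Matrix (Fin n) (Fin M.N) ℚ), LinearMap.ker Q.mulVecLin = M.fil ((M.w + 1) / 2) →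
        bc ℂ Q * M.P * J = -(bc ℂ Q * M.P)) →
      ∃ e : ℚ, e ≠ 0 ∧ c = (e : ℂ) * (c' * (bc ℂ (a.C false) * J * bc ℂ (a.B true)).det) := by
  obtain ⟨n, a, Q, e, hQ, he, h1, h2⟩ := exists_adapt M hc hc'
  refine ⟨n, a, fun J hJF hJQ => ⟨(-1) ^ n * e⁻¹, mul_ne_zero (pow_ne_zero _ (by norm_num)) (inv_ne_zero he), ?_⟩⟩
  have e1 : bc ℂ Q * M.P * bc ℂ (a.B true) =
      -(bc ℂ Q * M.P * bc ℂ (a.B false) * (bc ℂ (a.C false) * J * bc ℂ (a.B true))) := by
    have e2 : bc ℂ (a.B false) * (bc ℂ (a.C false) * J * bc ℂ (a.B true)) = J * bc ℂ (a.B true) := a.JB hJF true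
    rw [Matrix.mul_assoc (bc ℂ Q * M.P), e2, ← Matrix.mul_assoc, hJQ n Q hQ, Matrix.neg_mul, neg_neg]
  rw [e1, det_neg, Fintype.card_fin, det_mul] at h1
  have he' : (e : ℂ) ≠ 0 := by exact_mod_cast he
  rw [h1, h2]
  push_cast
  field_simp

end Pool.Agent.X274.PR
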