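import Pool.Agent.X274.PR.Split

set_option autoImplicit false

/-!
# Algebraic representations of `GL_N` over `ℚ`
-/

namespace Pool.Agent.X274.PR

open Matrix

/-- An algebraic representation of dimension `r` of the algebraic group `GL_N` over `ℚ`: a homomorphism of functors of
points, that is, homomorphisms `GL_N(A) → GL_r(A)` for all commutative `ℚ`-algebras `A`, natural in `A`. -/
structure AlgRep (N r : ℕ) where
  /-- the homomorphism on `A`-valued points -/
  map : ∀ (A : Type) [CommRing A] [Algebra ℚ A], GL (Fin N) A →* GL (Fin r) A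
  nat : ∀ (A B : Type) [CommRing A] [Algebra ℚ A] [CommRing B] [Algebra ℚ B] (f : A →ₐ[ℚ] B) (g : GL (Fin N) A),
    map B (Matrix.GeneralLinearGroup.map (f : A →+* B) g) =
      Matrix.GeneralLinearGroup.map (f : A →+* B) (map A g)

/-- the element `1 + ε X` of `GL_N(ℚ[ε])` -/
def tangent {N : ℕ} (X : Matrix (Fin N) (Fin N) ℚ) : GL (Fin N) (DualNumber ℚ) where
  val := 1 + (DualNumber.eps : DualNumber ℚ) • X.map (algebraMap ℚ (DualNumber ℚ))
  inv := 1 - (DualNumber.eps : DualNumber ℚ) • X.map (algebraMap ℚ (DualNumber ℚ))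
  val_inv := by
    rw [mul_sub, mul_one, add_mul, one_mul, Matrix.smul_mul, Matrix.mul_smul, smul_smul, DualNumber.eps_mul_eps,
      zero_smul, add_zero, add_sub_cancel_right]
  inv_val := by
    rw [mul_add, mul_one, sub_mul, one_mul, Matrix.smul_mul, Matrix.mul_smul, smul_smul, DualNumber.eps_mul_eps,
      zero_smul, sub_zero, sub_add_cancel]

/-- the derivative of the representation at the identity, `ρ(1 + ε X) = 1 + ε dρ(X)` -/
def AlgRep.der {N r : ℕ} (ρ : AlgRep N r) (X : Matrix (Fin N) (Fin N) ℚ) : Matrix (Fin r) (Fin r) ℚ :=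
  ((ρ.map (DualNumber ℚ) (tangent X) : GL (Fin r) (DualNumber ℚ)) :
    Matrix (Fin r) (Fin r) (DualNumber ℚ)).map TrivSqZeroExt.snd

namespace AlgRep

variable {N r : ℕ} (ρ : AlgRep N r)

theorem map_tangent (X : Matrix (Fin N) (Fin N) ℚ) :
    ((ρ.map (DualNumber ℚ) (tangent X) : GL (Fin r) (DualNumber ℚ)) : Matrix (Fin r) (Fin r) (DualNumber ℚ)) =
      1 + (DualNumber.eps : DualNumber ℚ) • bc (DualNumber ℚ) (ρ.der X) := by
  have h1 := ρ.nat (DualNumber ℚ) ℚ (TrivSqZeroExt.fstHom ℚ ℚ ℚ) (tangent X)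
  have h2 : Matrix.GeneralLinearGroup.map ((TrivSqZeroExt.fstHom ℚ ℚ ℚ : DualNumber ℚ →ₐ[ℚ] ℚ) : DualNumber ℚ →+* ℚ)
      (tangent X) = 1 := by
    apply Units.ext
    ext i j
    show TrivSqZeroExt.fst ((1 + (DualNumber.eps : DualNumber ℚ) • X.map (algebraMap ℚ (DualNumber ℚ))) i j) = _
    rw [Matrix.add_apply, TrivSqZeroExt.fst_add, Matrix.smul_apply, smul_eq_mul, TrivSqZeroExt.fst_mul,
      DualNumber.fst_eps, zero_mul, add_zero]
    by_cases h : i = j
    · subst h
      simp
    · simp [Matrix.one_apply, h]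
  rw [h2, map_one] at h1
  ext i j
  · have h3 := congrArg (fun g : GL (Fin r) ℚ => (g : Matrix (Fin r) (Fin r) ℚ) i j) h1
    have h4 : ((1 : GL (Fin r) ℚ) : Matrix (Fin r) (Fin r) ℚ) i j =
      TrivSqZeroExt.fst (((ρ.map (DualNumber ℚ) (tangent X) : GL (Fin r) (DualNumber ℚ)) :
        Matrix (Fin r) (Fin r) (DualNumber ℚ)) i j) := h3
    rw [← h4, Matrix.add_apply, TrivSqZeroExt.fst_add, Matrix.smul_apply, smul_eq_mul, TrivSqZeroExt.fst_mul,
      DualNumber.fst_eps, zero_mul, add_zero]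
    by_cases h : i = j
    · subst h
      simp
    · simp [Matrix.one_apply, h]
  · rw [Matrix.add_apply, TrivSqZeroExt.snd_add, Matrix.smul_apply, smul_eq_mul, TrivSqZeroExt.snd_mul]
    have e1 : TrivSqZeroExt.snd ((1 : Matrix (Fin r) (Fin r) (DualNumber ℚ)) i j) = 0 := by
      by_cases h : i = j
      · subst h
        simp
      · simp [Matrix.one_apply, h]
    rw [e1]
    simp [AlgRep.der, TrivSqZeroExt.algebraMap_eq_inl]

theorem tangent_add (X Y : Matrix (Fin N) (Fin N) ℚ) : tangent (X + Y) = tangent X * tangent Y := by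
  apply Units.ext
  show 1 + (DualNumber.eps : DualNumber ℚ) • bc (DualNumber ℚ) (X + Y) =
    (1 + (DualNumber.eps : DualNumber ℚ) • bc (DualNumber ℚ) X) * (1 + (DualNumber.eps : DualNumber ℚ) • bc (DualNumber ℚ) Y)
  rw [bc_add, mul_add, mul_one, add_mul, one_mul, Matrix.smul_mul, Matrix.mul_smul, smul_smul, DualNumber.eps_mul_eps,
    zero_smul, add_zero, smul_add, add_assoc]

/-- `x ↦ ε x` is injective on rational matrices -/
theorem eps_inj {m n : Type} {X Y : Matrix m n ℚ}
    (h : (DualNumber.eps : DualNumber ℚ) • bc (DualNumber ℚ) X = (DualNumber.eps : DualNumber ℚ) • bc (DualNumber ℚ) Y) :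
    X = Y := by
  ext i j
  have h1 := congrArg (fun Z : Matrix m n (DualNumber ℚ) => TrivSqZeroExt.snd (Z i j)) h
  simpa [TrivSqZeroExt.algebraMap_eq_inl] using h1

theorem der_add (X Y : Matrix (Fin N) (Fin N) ℚ) : ρ.der (X + Y) = ρ.der X + ρ.der Y := by
  have h1 := ρ.map_tangent (X + Y)
  rw [tangent_add, map_mul, Units.val_mul, ρ.map_tangent, ρ.map_tangent] at h1
  refine (eps_inj ?_).symm
  rw [mul_add, mul_one, add_mul, one_mul, Matrix.smul_mul, Matrix.mul_smul, smul_smul, DualNumber.eps_mul_eps,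
    zero_smul, add_zero, add_assoc, add_right_inj] at h1
  rw [bc_add, smul_add, h1]

/-- the determinant of `1 + ε X` -/
theorem det_tangent {m : ℕ} (X : Matrix (Fin m) (Fin m) ℚ) :
    (1 + (DualNumber.eps : DualNumber ℚ) • bc (DualNumber ℚ) X).det = 1 + DualNumber.eps * algebraMap ℚ _ X.trace := by
  have h1 := Matrix.det_one_add_smul (DualNumber.eps : DualNumber ℚ) (bc (DualNumber ℚ) X)
  rw [h1, sq, DualNumber.eps_mul_eps, mul_zero, add_zero, mul_comm]
  congr 2
  simp [Matrix.trace, map_sum]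

end AlgRep

/-- integral powers of `1 + ε` -/
def unitEps : (DualNumber ℚ)ˣ where
  val := 1 + DualNumber.eps
  inv := 1 - DualNumber.eps
  val_inv := by
    rw [mul_sub, mul_one, add_mul, one_mul, DualNumber.eps_mul_eps, add_zero, add_sub_cancel_right]
  inv_val := by
    rw [mul_add, mul_one, sub_mul, one_mul, DualNumber.eps_mul_eps, sub_zero, sub_add_cancel]

theorem unitEps_zpow (k : ℤ) : ((unitEps ^ k : (DualNumber ℚ)ˣ) : DualNumber ℚ) =
    1 + DualNumber.eps * algebraMap ℚ _ (k : ℚ) := by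
  have hmul : ∀ a b : ℚ, (1 + DualNumber.eps * algebraMap ℚ (DualNumber ℚ) a) *
      (1 + DualNumber.eps * algebraMap ℚ (DualNumber ℚ) b) = 1 + DualNumber.eps * algebraMap ℚ _ (a + b) := by
    intro a b
    have := DualNumber.eps_mul_eps (R := ℚ)
    rw [map_add]
    linear_combination (algebraMap ℚ (DualNumber ℚ) a * algebraMap ℚ (DualNumber ℚ) b) * this
  induction k with
  | zero => simp
  | succ n ih =>
    rw [_root_.zpow_add_one, Units.val_mul, ih]
    have h1 : ((unitEps : (DualNumber ℚ)ˣ) : DualNumber ℚ) = 1 + DualNumber.eps * algebraMap ℚ _ 1 := by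
      rw [map_one, mul_one]
      rfl
    rw [h1, hmul]
    push_cast
    rfl
  | pred n ih =>
    rw [_root_.zpow_sub_one, Units.val_mul, ih]
    have h1 : ((unitEps⁻¹ : (DualNumber ℚ)ˣ) : DualNumber ℚ) = 1 + DualNumber.eps * algebraMap ℚ _ (-1) := by
      rw [map_neg, map_one, mul_neg, mul_one, ← sub_eq_add_neg]
      rfl
    rw [h1, hmul]
    push_cast
    rw [sub_eq_add_neg]

theorem eps_inj' {a b : ℚ} (h : (1 : DualNumber ℚ) + DualNumber.eps * algebraMap ℚ _ a =
    1 + DualNumber.eps * algebraMap ℚ _ b) : a = b := by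
  have h1 := congrArg TrivSqZeroExt.snd h
  simpa [TrivSqZeroExt.algebraMap_eq_inl] using h1

end Pool.Agent.X274.PR
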