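import Pool.Agent.X274.PR.Chars

set_option autoImplicit false

/-!
# Rational involutions, block decompositions
-/

namespace Pool.Agent.X274.PR

open Matrix

/-- a rational matrix over `A` -/
abbrev bc (A : Type) [CommRing A] [Algebra ℚ A] {m n : Type} (X : Matrix m n ℚ) : Matrix m n A :=
  X.map (algebraMap ℚ A)

section

variable {A : Type} [CommRing A] [Algebra ℚ A]

theorem bc_mul {l m n : Type} [Fintype m] (X : Matrix l m ℚ) (Y : Matrix m n ℚ) :
    bc A (X * Y) = bc A X * bc A Y := Matrix.map_mul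

theorem bc_one {m : Type} [DecidableEq m] : bc A (1 : Matrix m m ℚ) = 1 :=
  Matrix.map_one _ (map_zero _) (map_one _)

theorem bc_zero {m n : Type} : bc A (0 : Matrix m n ℚ) = 0 := Matrix.map_zero _ (map_zero _)

theorem bc_add {m n : Type} (X Y : Matrix m n ℚ) : bc A (X + Y) = bc A X + bc A Y :=
  Matrix.map_add _ (map_add _) X Y

theorem bc_neg {m n : Type} (X : Matrix m n ℚ) : bc A (-X) = -bc A X := by
  ext i j
  simp

theorem bc_sub {m n : Type} (X Y : Matrix m n ℚ) : bc A (X - Y) = bc A X - bc A Y :=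
  Matrix.map_sub _ (map_sub _) X Y

end

/-- bases of the eigenspaces of the involution `F` (`true`: eigenvalue `1`) of the same dimension `m` -/
structure Adapt {r : ℕ} (F : Matrix (Fin r) (Fin r) ℚ) (m : ℕ) where
  /-- the columns are a basis of the eigenspace -/
  B : Bool → Matrix (Fin r) (Fin m) ℚ
  /-- the coordinates -/
  C : Bool → Matrix (Fin m) (Fin r) ℚ
  CB : ∀ b, C b * B b = 1
  CB' : ∀ b, C b * B (!b) = 0
  sum : B true * C true + B false * C false = 1
  diff : B true * C true - B false * C false = F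

namespace Adapt

variable {r m : ℕ} {F : Matrix (Fin r) (Fin r) ℚ} (a : Adapt F m)
  {A : Type} [CommRing A] [Algebra ℚ A]

/-- the projections -/
abbrev e (b : Bool) : Matrix (Fin r) (Fin r) ℚ := a.B b * a.C b

theorem two_e (b : Bool) : (2 : ℚ) • a.e b = 1 + (if b then (1 : ℚ) else -1) • F := by
  have h1 := a.sum
  have h2 := a.diff
  have h3 : ∀ P Q R : Matrix (Fin r) (Fin r) ℚ, P + Q = 1 → P - Q = R →
      (2 : ℚ) • P = 1 + (1 : ℚ) • R ∧ (2 : ℚ) • Q = 1 + (-1 : ℚ) • R := by
    rintro P Q R h rfl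
    rw [← h, two_smul, two_smul]
    simp only [one_smul, neg_smul]
    constructor <;> abel
  cases b
  · simpa using (h3 _ _ _ h1 h2).2
  · simpa using (h3 _ _ _ h1 h2).1

theorem bc_e (b : Bool) : (2 : A) • bc A (a.e b) = 1 + (if b then (1 : A) else -1) • bc A F := by
  have h := congrArg (bc A) (a.two_e b)
  rw [bc_add, bc_one] at h
  have e1 : ∀ (c : ℚ) (X : Matrix (Fin r) (Fin r) ℚ), bc A (c • X) = algebraMap ℚ A c • bc A X := by
    intro c X
    ext i j
    simp
  rw [e1, e1, map_ofNat] at h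
  rw [h]
  cases b <;> simp

theorem two_cancel {l n : Type} {X Y : Matrix l n A} (h : (2 : A) • X = (2 : A) • Y) : X = Y := by
  have h2 : algebraMap ℚ A (1 / 2) * 2 = 1 := by
    rw [show (2 : A) = algebraMap ℚ A 2 by rw [map_ofNat], ← map_mul]
    norm_num
  have h3 := congrArg (fun Z => algebraMap ℚ A (1 / 2) • Z) h
  simpa only [smul_smul, h2, one_smul] using h3

/-- a matrix commuting with `F` commutes with the projections -/
theorem comm_e {X : Matrix (Fin r) (Fin r) A} (h : X * bc A F = bc A F * X) (b : Bool) :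
    X * bc A (a.e b) = bc A (a.e b) * X := by
  refine two_cancel ?_
  rw [← Matrix.mul_smul, ← Matrix.smul_mul, a.bc_e, mul_add, add_mul, mul_one, one_mul, Matrix.mul_smul,
    Matrix.smul_mul, h]

/-- a matrix anticommuting with `F` exchanges the projections -/
theorem anti_e {X : Matrix (Fin r) (Fin r) A} (h : X * bc A F = -(bc A F * X)) (b : Bool) :
    X * bc A (a.e b) = bc A (a.e (!b)) * X := by
  refine two_cancel ?_
  rw [← Matrix.mul_smul, ← Matrix.smul_mul, a.bc_e, a.bc_e, mul_add, add_mul, mul_one, one_mul, Matrix.mul_smul,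
    Matrix.smul_mul, h]
  cases b <;> simp

theorem eB (b : Bool) : bc A (a.e b) * bc A (a.B b) = bc A (a.B b) := by
  rw [← bc_mul, Matrix.mul_assoc, a.CB, Matrix.mul_one]

theorem XB {X : Matrix (Fin r) (Fin r) A} (h : X * bc A F = bc A F * X) (b : Bool) :
    bc A (a.B b) * (bc A (a.C b) * X * bc A (a.B b)) = X * bc A (a.B b) := by
  rw [Matrix.mul_assoc, ← Matrix.mul_assoc, ← bc_mul]
  show bc A (a.e b) * (X * bc A (a.B b)) = _
  rw [← Matrix.mul_assoc, ← a.comm_e h, Matrix.mul_assoc, a.eB]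

theorem JB {X : Matrix (Fin r) (Fin r) A} (h : X * bc A F = -(bc A F * X)) (b : Bool) :
    bc A (a.B (!b)) * (bc A (a.C (!b)) * X * bc A (a.B b)) = X * bc A (a.B b) := by
  rw [Matrix.mul_assoc, ← Matrix.mul_assoc, ← bc_mul]
  show bc A (a.e (!b)) * (X * bc A (a.B b)) = _
  rw [← Matrix.mul_assoc, ← a.anti_e h, Matrix.mul_assoc, a.eB]

theorem bcCB (b : Bool) : bc A (a.C b) * bc A (a.B b) = 1 := by
  rw [← bc_mul, a.CB, bc_one]

theorem bcCB' (b : Bool) : bc A (a.C b) * bc A (a.B (!b)) = 0 := by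
  rw [← bc_mul, a.CB', bc_zero]

/-- the determinant of a block, as a character of a group of matrices that commute with `F` -/
noncomputable def blk (b : Bool) {H : Type} [Group H] (θ : H →* GL (Fin r) A)
    (hθ : ∀ h, (θ h : Matrix (Fin r) (Fin r) A) * bc A F = bc A F * (θ h : Matrix (Fin r) (Fin r) A)) :
    H →* Aˣ :=
  MonoidHom.toHomUnits
    { toFun := fun h => (bc A (a.C b) * (θ h : Matrix (Fin r) (Fin r) A) * bc A (a.B b)).det
      map_one' := by rw [map_one, Units.val_one, Matrix.mul_one, a.bcCB, det_one]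
      map_mul' := fun h h' => by
        rw [map_mul, Units.val_mul, ← det_mul]
        congr 1
        rw [Matrix.mul_assoc (bc A (a.C b) * (θ h : Matrix (Fin r) (Fin r) A)), a.XB (hθ h')]
        simp only [Matrix.mul_assoc] }

theorem blk_val (b : Bool) {H : Type} [Group H] (θ : H →* GL (Fin r) A)
    (hθ : ∀ h, (θ h : Matrix (Fin r) (Fin r) A) * bc A F = bc A F * (θ h : Matrix (Fin r) (Fin r) A)) (h : H) :
    ((a.blk b θ hθ h : Aˣ) : A) = (bc A (a.C b) * (θ h : Matrix (Fin r) (Fin r) A) * bc A (a.B b)).det := rfl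

end Adapt

end Pool.Agent.X274.PR
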